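import Mathlib

/-! Definitions for Wegner's problem on finitely stable packings. -/

namespace Pool.Agent.MP_a0a9ec_co

variable {E : Type*} [NormedAddCommGroup E] [NormedSpace ℝ E]

/-- A convex body: a compact convex set with nonempty interior. -/
def IsConvexBody (C : Set E) : Prop :=
  IsCompact C ∧ Convex ℝ C ∧ (interior C).Nonempty

/-- A packing: a family of convex bodies with pairwise disjoint interiors. -/
def IsPacking (𝒞 : Set (Set E)) : Prop :=
  (∀ C ∈ 𝒞, IsConvexBody C) ∧
    ∀ C ∈ 𝒞, ∀ D ∈ 𝒞, C ≠ D → Disjoint (interior C) (interior D)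

/-- Two sets are congruent if an isometry of the space maps one onto the other. -/
def Congruent (C D : Set E) : Prop := ∃ e : E ≃ᵢ E, e '' C = D

/-- `k`-stability: for every `k` members there is `ε > 0` such that replacing each of them by a
congruent set at Hausdorff distance less than `ε` gives a packing again only if nothing was
changed. -/
def KStable (k : ℕ) (𝒞 : Set (Set E)) : Prop :=
  ∀ S : Finset (Set E), (S : Set (Set E)) ⊆ 𝒞 → S.card = k →
    ∃ ε : ℝ, 0 < ε ∧ ∀ f : Set E → Set E,
      (∀ C ∈ S, Congruent C (f C) ∧ Metric.hausdorffDist C (f C) < ε) →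
      IsPacking ((𝒞 \ (S : Set (Set E))) ∪ f '' (S : Set (Set E))) → ∀ C ∈ S, f C = C

/-- A packing is finitely stable if it is `k`-stable for every positive `k`. -/
def FinitelyStable (𝒞 : Set (Set E)) : Prop := ∀ k : ℕ, 0 < k → KStable k 𝒞

/-- The neighbours of a member: the other members which it touches. -/
def neighbours (𝒞 : Set (Set E)) (C : Set E) : Set (Set E) :=
  {D | D ∈ 𝒞 ∧ D ≠ C ∧ (C ∩ D).Nonempty}

end Pool.Agent.MP_a0a9ec_co
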