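import Pool.Agent.Lib.MP_a0a9ec_co.Zp

/-! The convex hexagon `KK`, its copies `bod k w`, and certificates for separation and contact. -/

namespace Pool.Agent.MP_a0a9ec_co

open Real

def KVl : List Pt :=
  [⟨⟨0, 0⟩, ⟨0, 0⟩⟩, ⟨⟨10, 0⟩, ⟨0, 0⟩⟩, ⟨⟨15, 0⟩, ⟨5, 0⟩⟩, ⟨⟨1, 8⟩, ⟨1, 8⟩⟩,
   ⟨⟨5, 0⟩, ⟨15, 0⟩⟩, ⟨⟨0, 0⟩, ⟨10, 0⟩⟩]

def uP : Pt := ⟨⟨2, 6⟩, ⟨12, 11⟩⟩
def vP : Pt := ⟨⟨-17, -31⟩, ⟨13, 29⟩⟩
def oP : Pt := ⟨⟨0, 0⟩, ⟨0, 0⟩⟩

def vset : Set ℂ := {z | ∃ p ∈ KVl, z = evC p}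

noncomputable def KK : Set ℂ := convexHull ℝ vset

noncomputable def bod (k : ℕ) (w : ℂ) : Set ℂ := (fun z => zt ^ k * z + w) '' KK

theorem evC_oP : evC oP = 0 := by simp [evC, oP, Zp.ev]

theorem vset_finite : vset.Finite := by
  have : vset = evC '' {p | p ∈ KVl} := by
    ext z; constructor
    · rintro ⟨p, hp, rfl⟩; exact ⟨p, hp, rfl⟩
    · rintro ⟨p, hp, rfl⟩; exact ⟨p, hp, rfl⟩
  rw [this]
  exact (List.finite_toSet KVl).image _

theorem KK_compact : IsCompact KK := vset_finite.isCompact_convexHull (𝕜 := ℝ)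
theorem KK_convex : Convex ℝ KK := convex_convexHull ℝ _

theorem vert_mem {p : Pt} (hp : p ∈ KVl) : evC p ∈ KK :=
  subset_convexHull ℝ _ ⟨p, hp, rfl⟩

theorem zero_mem_KK : (0 : ℂ) ∈ KK := by
  have := vert_mem (p := oP) (by decide)
  rwa [evC_oP] at this

theorem bod_convex (k : ℕ) (w : ℂ) : Convex ℝ (bod k w) := by
  intro x hx y hy a b ha hb hab
  obtain ⟨x', hx', rfl⟩ := hx
  obtain ⟨y', hy', rfl⟩ := hy
  refine ⟨a • x' + b • y', KK_convex hx' hy' ha hb hab, ?_⟩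
  simp only [Complex.real_smul]
  have : (a : ℂ) + b = 1 := by exact_mod_cast hab
  linear_combination (-w) * this

theorem bod_compact (k : ℕ) (w : ℂ) : IsCompact (bod k w) :=
  KK_compact.image (by fun_prop)

theorem cen_mem_bod (k : ℕ) (w : ℂ) : w ∈ bod k w := ⟨0, zero_mem_KK, by simp⟩

/-- evaluation of an affine functional on a body -/
theorem bod_crs_le {k : ℕ} {w : ℂ} {t : ℂ} {c : ℝ}
    (h : ∀ p ∈ KVl, crs t (zt ^ k * evC p + w) ≤ c) : ∀ x ∈ bod k w, crs t x ≤ c := by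
  rintro _ ⟨z, hz, rfl⟩
  have hlin : IsLinearMap ℝ (fun z : ℂ => crs t (zt ^ k * z)) := by
    constructor
    · intro x y; simp only [crs, mul_add, Complex.add_re, Complex.add_im]; ring
    · intro r x
      simp only [crs, Complex.real_smul, Complex.mul_re, Complex.mul_im, Complex.ofReal_re,
        Complex.ofReal_im, smul_eq_mul]; ring
  have hsub : KK ⊆ {z : ℂ | crs t (zt ^ k * z) ≤ c - crs t w} := by
    apply convexHull_min
    · rintro _ ⟨p, hp, rfl⟩
      have := h p hp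
      simp only [Set.mem_ofPred_eq]
      simp only [crs, Complex.add_re, Complex.add_im] at this ⊢
      linarith
    · exact convex_halfSpace_le hlin _
  have := hsub hz
  simp only [Set.mem_ofPred_eq, crs] at this
  simp only [crs, Complex.add_re, Complex.add_im]
  linarith

theorem bod_crs_ge {k : ℕ} {w : ℂ} {t : ℂ} {c : ℝ}
    (h : ∀ p ∈ KVl, c ≤ crs t (zt ^ k * evC p + w)) : ∀ x ∈ bod k w, c ≤ crs t x := by
  intro x hx
  have h1 : ∀ p ∈ KVl, crs (-t) (zt ^ k * evC p + w) ≤ -c := by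
    intro p hp; have := h p hp; simp only [crs, Complex.neg_re, Complex.neg_im] at this ⊢; linarith
  have := bod_crs_le h1 x hx
  simp only [crs, Complex.neg_re, Complex.neg_im] at this ⊢; linarith

/-- strict separation check between `bod k 0` and `bod l w` -/
def chkS (k l : ℕ) (w t : Pt) (c : Zp) : Bool :=
  KVl.all (fun p => (c.sub (Pt.cr t (Pt.rotN k p))).pos) &&
  KVl.all (fun p => ((Pt.cr t ((Pt.rotN l p).add w)).sub c).pos)

/-- weak separation check between `bod k 0` and `bod l w` -/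
def chkW (k l : ℕ) (w t : Pt) (c : Zp) : Bool :=
  KVl.all (fun p => (c.sub (Pt.cr t (Pt.rotN k p))).nonneg) &&
  KVl.all (fun p => ((Pt.cr t ((Pt.rotN l p).add w)).sub c).nonneg) &&
  (Pt.cr t t.rot).pos

theorem list_max {α : Type} (L : List α) (f : α → ℝ) (c : ℝ) (h : ∀ p ∈ L, f p < c) :
    ∃ c' < c, ∀ p ∈ L, f p ≤ c' := by
  induction L with
  | nil => exact ⟨c - 1, by linarith, by simp⟩
  | cons a L ih =>
    obtain ⟨c', hc', h'⟩ := ih (fun p hp => h p (List.mem_cons_of_mem _ hp))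
    refine ⟨max c' (f a), max_lt hc' (h a (by simp)), ?_⟩
    intro p hp
    rcases List.mem_cons.1 hp with rfl | hp
    · exact le_max_right _ _
    · exact (h' p hp).trans (le_max_left _ _)

theorem chkS_sound {k l : ℕ} {w t : Pt} {c : Zp} (h : chkS k l w t c = true) :
    Disjoint (bod k 0) (bod l (evC w)) := by
  simp only [chkS, Bool.and_eq_true, List.all_eq_true] at h
  obtain ⟨h1, h2⟩ := h
  have hs := sg_pos
  have g1 : ∀ p ∈ KVl, crs (evC t) (zt ^ k * evC p + 0) < sg * c.ev := by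
    intro p hp
    have := Zp.pos_sound (h1 p hp)
    rw [Zp.ev_sub] at this
    rw [add_zero, ← evC_rotN, crs_evC]
    nlinarith
  have g2 : ∀ p ∈ KVl, sg * c.ev ≤ crs (evC t) (zt ^ l * evC p + evC w) := by
    intro p hp
    have := Zp.pos_sound (h2 p hp)
    rw [Zp.ev_sub] at this
    rw [← evC_rotN, ← evC_add, crs_evC]
    nlinarith
  obtain ⟨c', hc', g3⟩ := list_max KVl _ _ g1
  rw [Set.disjoint_left]
  intro x hx hx'
  have a1 := bod_crs_le g3 x hx
  have a2 := bod_crs_ge g2 x hx'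
  linarith

theorem crs_I_mul (t : ℂ) : crs t (Complex.I * t) = Complex.normSq t := by
  simp [crs, Complex.normSq_apply]

/-- weakly separated sets have disjoint interiors -/
theorem weak_sep {A B : Set ℂ} {t : ℂ} {c : ℝ} (ht : t ≠ 0) (hA : ∀ x ∈ A, crs t x ≤ c)
    (hB : ∀ x ∈ B, c ≤ crs t x) : Disjoint (interior A) (interior B) := by
  rw [Set.disjoint_left]
  intro x hx hx'
  have h1 : c ≤ crs t x := hB x (interior_subset hx')
  have hcont : Filter.Tendsto (fun δ : ℝ => x + δ * (Complex.I * t)) (nhds 0) (nhds x) := by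
    have : Filter.Tendsto (fun δ : ℝ => x + δ * (Complex.I * t)) (nhds 0)
        (nhds (x + ((0 : ℝ) : ℂ) * (Complex.I * t))) := by
      apply Continuous.tendsto; fun_prop
    simpa using this
  have hev := hcont (isOpen_interior.mem_nhds hx)
  have hev2 : ∀ᶠ δ : ℝ in nhdsWithin 0 (Set.Ioi 0), x + δ * (Complex.I * t) ∈ interior A :=
    nhdsWithin_le_nhds hev
  have hev3 : ∀ᶠ δ : ℝ in nhdsWithin 0 (Set.Ioi 0), δ ∈ Set.Ioi (0 : ℝ) :=
    self_mem_nhdsWithin
  obtain ⟨δ, hδ, hδ0⟩ := (hev2.and hev3).exists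
  have h2 := hA _ (interior_subset hδ)
  have h3 : crs t (x + δ * (Complex.I * t)) = crs t x + δ * Complex.normSq t := by
    rw [← crs_I_mul]
    simp only [crs, Complex.add_re, Complex.add_im, Complex.mul_re, Complex.mul_im,
      Complex.ofReal_re, Complex.ofReal_im, Complex.I_re, Complex.I_im]
    ring
  have h4 : 0 < Complex.normSq t := Complex.normSq_pos.2 ht
  have h5 : (0 : ℝ) < δ := hδ0
  nlinarith [mul_pos h5 h4]

theorem chkW_sound {k l : ℕ} {w t : Pt} {c : Zp} (h : chkW k l w t c = true) :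
    Disjoint (interior (bod k 0)) (interior (bod l (evC w))) := by
  simp only [chkW, Bool.and_eq_true, List.all_eq_true] at h
  obtain ⟨⟨h1, h2⟩, h3⟩ := h
  have hs := sg_pos
  have g1 : ∀ p ∈ KVl, crs (evC t) (zt ^ k * evC p + 0) ≤ sg * c.ev := by
    intro p hp
    have := Zp.nonneg_sound (h1 p hp)
    rw [Zp.ev_sub] at this
    rw [add_zero, ← evC_rotN, crs_evC]
    nlinarith
  have g2 : ∀ p ∈ KVl, sg * c.ev ≤ crs (evC t) (zt ^ l * evC p + evC w) := by
    intro p hp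
    have := Zp.nonneg_sound (h2 p hp)
    rw [Zp.ev_sub] at this
    rw [← evC_rotN, ← evC_add, crs_evC]
    nlinarith
  have ht : evC t ≠ 0 := by
    intro h0
    have := Zp.pos_sound h3
    have h5 := crs_evC t t.rot
    rw [h0] at h5
    simp only [crs, Complex.zero_re, Complex.zero_im, zero_mul, sub_zero] at h5
    nlinarith
  exact weak_sep ht (bod_crs_le g1) (bod_crs_ge g2)

/-- membership check: `P` lies on the segment between two vertices of `bod k w` -/
def chkE (k : ℕ) (w P j1 j2 : Pt) (a b : Zp) : Bool :=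
  decide (j1 ∈ KVl) && decide (j2 ∈ KVl) && a.nonneg && b.nonneg && (a.add b).pos &&
  decide ((⟨(a.add b).mul P.x, (a.add b).mul P.y⟩ : Pt) =
    Pt.add ⟨a.mul ((Pt.rotN k j1).add w).x, a.mul ((Pt.rotN k j1).add w).y⟩
      ⟨b.mul ((Pt.rotN k j2).add w).x, b.mul ((Pt.rotN k j2).add w).y⟩)

theorem chkE_sound {k : ℕ} {w P j1 j2 : Pt} {a b : Zp} (h : chkE k w P j1 j2 a b = true) :
    evC P ∈ bod k (evC w) := by
  simp only [chkE, Bool.and_eq_true, decide_eq_true_eq] at h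
  obtain ⟨⟨⟨⟨⟨h1, h2⟩, h3⟩, h4⟩, h5⟩, h6⟩ := h
  have a0 := Zp.nonneg_sound h3
  have b0 := Zp.nonneg_sound h4
  have ab := Zp.pos_sound h5
  rw [Zp.ev_add] at ab
  have m1 : evC ((Pt.rotN k j1).add w) ∈ bod k (evC w) := by
    rw [evC_add, evC_rotN]; exact ⟨_, vert_mem h1, rfl⟩
  have m2 : evC ((Pt.rotN k j2).add w) ∈ bod k (evC w) := by
    rw [evC_add, evC_rotN]; exact ⟨_, vert_mem h2, rfl⟩
  set Q1 := (Pt.rotN k j1).add w with hQ1
  set Q2 := (Pt.rotN k j2).add w with hQ2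
  have e1 := congrArg (fun p : Pt => evC p) h6
  simp only [evC_add] at e1
  have e2 : ∀ (c : Zp) (p : Pt), evC ⟨c.mul p.x, c.mul p.y⟩ = (c.ev : ℂ) * evC p := by
    intro c p; simp only [evC, Zp.ev_mul, Complex.ofReal_mul]; ring
  rw [e2, e2, e2, Zp.ev_add] at e1
  have hconv := bod_convex k (evC w) m1 m2 (div_nonneg a0 ab.le) (div_nonneg b0 ab.le)
    (by field_simp)
  have hne : ((a.ev + b.ev : ℝ) : ℂ) ≠ 0 := by exact_mod_cast ab.ne'
  have : evC P = (a.ev / (a.ev + b.ev)) • evC Q1 + (b.ev / (a.ev + b.ev)) • evC Q2 := by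
    simp only [Complex.real_smul, Complex.ofReal_div]
    field_simp
    linear_combination e1
  rw [this]; exact hconv

/-- translation -/
theorem bod_translate (k : ℕ) (w d : ℂ) : bod k (w + d) = (fun z => z + d) '' bod k w := by
  ext z; constructor
  · rintro ⟨x, hx, rfl⟩; exact ⟨_, ⟨x, hx, rfl⟩, by simp only []; ring⟩
  · rintro ⟨_, ⟨x, hx, rfl⟩, rfl⟩; exact ⟨x, hx, by simp only []; ring⟩

theorem interior_translate (A : Set ℂ) (d : ℂ) :
    interior ((fun z => z + d) '' A) = (fun z => z + d) '' interior A := by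
  have := (Homeomorph.addRight d).image_interior A
  simpa using this.symm

theorem disj_translate {A B : Set ℂ} (d : ℂ) (h : Disjoint A B) :
    Disjoint ((fun z => z + d) '' A) ((fun z => z + d) '' B) := by
  apply Set.disjoint_image_of_injective _ h
  intro x y hxy
  simpa using hxy

end Pool.Agent.MP_a0a9ec_co
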