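import Pool.Agent.Lib.MP_a0a9ec_co.RowGeom

/-! The first order limit of a sequence of small perturbations. -/

namespace Pool.Agent.MP_a0a9ec_co

open Real Filter Topology

abbrev Idx := ℤ × ℤ × Fin 10

noncomputable def cc (i : Idx) : ℂ := cen i.1 i.2.1

/-- the direct isometry with rotation part `a` about the centre `cc i`, followed by the
translation `b` -/
noncomputable def mo (a b : ℂ) (i : Idx) (z : ℂ) : ℂ := a * (z - cc i) + cc i + b

theorem sep_exists {X Y : Set ℂ} (hX : Convex ℝ X) (hY : Convex ℝ Y)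
    (iX : (interior X).Nonempty) (iY : (interior Y).Nonempty)
    (h : Disjoint (interior X) (interior Y)) :
    ∃ m : ℂ, ‖m‖ = 1 ∧ ∀ x ∈ X, ∀ y ∈ Y, 0 ≤ inn m (y - x) := by
  obtain ⟨f, u, h1, h2⟩ := geometric_hahn_banach_open_open hX.interior isOpen_interior
    hY.interior isOpen_interior h
  have hx : ∀ x ∈ X, f x ≤ u := by
    intro x hx
    have hx' : x ∈ closure (interior X) := by
      rw [hX.closure_interior_eq_closure_of_nonempty_interior iX]; exact subset_closure hx
    have : closure (interior X) ⊆ {z | f z ≤ u} :=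
      closure_minimal (fun a ha => (h1 a ha).le) (isClosed_le f.continuous continuous_const)
    exact this hx'
  have hy : ∀ y ∈ Y, u ≤ f y := by
    intro y hy
    have hy' : y ∈ closure (interior Y) := by
      rw [hY.closure_interior_eq_closure_of_nonempty_interior iY]; exact subset_closure hy
    have : closure (interior Y) ⊆ {z | u ≤ f z} :=
      closure_minimal (fun a ha => (h2 a ha).le) (isClosed_le continuous_const f.continuous)
    exact this hy'
  set m0 : ℂ := ⟨f 1, f Complex.I⟩ with hm0
  have hf : ∀ z, f z = inn m0 z := by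
    intro z
    have e : z = z.re • (1 : ℂ) + z.im • Complex.I := by
      apply Complex.ext <;> simp
    conv_lhs => rw [e]
    rw [map_add, map_smul, map_smul]
    simp only [inn, hm0, smul_eq_mul]; ring
  have hne : m0 ≠ 0 := by
    intro h0
    obtain ⟨x0, hx0⟩ := iX
    obtain ⟨y0, hy0⟩ := iY
    have a1 := h1 x0 hx0
    have a2 := h2 y0 hy0
    rw [hf, h0] at a1 a2
    simp only [inn, Complex.zero_re, Complex.zero_im, zero_mul, add_zero] at a1 a2
    linarith
  have hpos : 0 < ‖m0‖ := norm_pos_iff.2 hne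
  refine ⟨((‖m0‖⁻¹ : ℝ) : ℂ) * m0, ?_, ?_⟩
  · rw [norm_mul, Complex.norm_real, norm_inv, norm_norm]
    field_simp
  · intro x hx' y hy'
    have e : inn (((‖m0‖⁻¹ : ℝ) : ℂ) * m0) (y - x) = ‖m0‖⁻¹ * (f y - f x) := by
      rw [hf, hf]
      simp only [inn, Complex.mul_re, Complex.mul_im, Complex.ofReal_re, Complex.ofReal_im,
        Complex.sub_re, Complex.sub_im]
      ring
    rw [e]
    have := hx x hx'
    have := hy y hy'
    exact mul_nonneg (inv_nonneg.2 hpos.le) (by linarith)

theorem ultra_limit (U : Ultrafilter ℕ) (x : ℕ → ℂ) (M : ℝ) (h : ∀ j, ‖x j‖ ≤ M) :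
    ∃ L, Tendsto x U (𝓝 L) := by
  have hc : IsCompact (Metric.closedBall (0 : ℂ) M) := isCompact_closedBall 0 M
  obtain ⟨L, _, hL⟩ := hc.ultrafilter_le_nhds (U.map x) (by
    rw [Filter.le_principal_iff]
    simp only [Ultrafilter.coe_map, Filter.mem_map]
    refine Filter.mem_of_superset Filter.univ_mem ?_
    intro j _
    simp only [Set.mem_preimage, mem_closedBall_zero_iff]
    exact h j)
  exact ⟨L, hL⟩

theorem inn_continuous : Continuous (fun p : ℂ × ℂ => inn p.1 p.2) := by
  unfold inn
  fun_prop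

theorem tendsto_inn {U : Filter ℕ} {x y : ℕ → ℂ} {a b : ℂ} (hx : Tendsto x U (𝓝 a))
    (hy : Tendsto y U (𝓝 b)) : Tendsto (fun j => inn (x j) (y j)) U (𝓝 (inn a b)) :=
  (inn_continuous.tendsto (a, b)).comp (hx.prodMk_nhds hy)

/-! interiors -/

theorem KK_interior_nonempty : (interior KK).Nonempty := by
  have hs := sg_pos
  set S : Set ℂ := {z | 0 < z.im / sg} ∩ {z | 0 < z.re - z.im / sg * (goldenRatio / 2)} ∩
    {z | z.im / sg + (z.re - z.im / sg * (goldenRatio / 2)) < 10} with hS
  have hopen : IsOpen S := by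
    apply IsOpen.inter
    · apply IsOpen.inter
      · exact isOpen_lt continuous_const (by fun_prop)
      · exact isOpen_lt continuous_const (by fun_prop)
    · exact isOpen_lt (by fun_prop) continuous_const
  have hsub : S ⊆ KK := by
    rintro z ⟨⟨h1, h2⟩, h3⟩
    simp only [Set.mem_ofPred_eq] at h1 h2 h3
    set b := z.im / sg with hb
    set a := z.re - b * (goldenRatio / 2) with ha
    have m0 := zero_mem_KK
    have m1 : evC ⟨⟨10, 0⟩, ⟨0, 0⟩⟩ ∈ KK := vert_mem (by decide)
    have m2 : evC ⟨⟨0, 0⟩, ⟨10, 0⟩⟩ ∈ KK := vert_mem (by decide)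
    have hab : 0 < a + b := by linarith
    have c1 := KK_convex m1 m2 (a := a / (a + b)) (b := b / (a + b)) (by positivity)
      (by positivity) (by field_simp)
    have c2 := KK_convex m0 c1 (a := 1 - (a + b) / 10) (b := (a + b) / 10) (by linarith)
      (by positivity) (by ring)
    have e : z = (1 - (a + b) / 10) • (0 : ℂ) + ((a + b) / 10) •
        ((a / (a + b)) • evC ⟨⟨10, 0⟩, ⟨0, 0⟩⟩ + (b / (a + b)) • evC ⟨⟨0, 0⟩, ⟨10, 0⟩⟩) := by
      apply Complex.ext
      · simp only [smul_zero, zero_add, smul_add, Complex.add_re, Complex.real_smul,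
          Complex.mul_re, Complex.ofReal_re, Complex.ofReal_im, zero_mul, sub_zero, evC_re,
          Complex.mul_im, evC_im, Zp.ev]
        push_cast
        field_simp
        rw [ha]; ring
      · simp only [smul_zero, zero_add, smul_add, Complex.add_im, Complex.real_smul,
          Complex.mul_im, Complex.ofReal_re, Complex.ofReal_im, zero_mul, add_zero, evC_im,
          Complex.mul_re, evC_re, Zp.ev]
        push_cast
        field_simp
        rw [hb]; field_simp; ring
    rw [e]; exact c2
  have hne : S.Nonempty := by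
    refine ⟨evC ⟨⟨1, 0⟩, ⟨1, 0⟩⟩, ?_⟩
    simp only [hS, Set.mem_inter_iff, Set.mem_ofPred_eq, evC_re, evC_im, Zp.ev]
    push_cast
    have : (1 + 0 * goldenRatio) * sg / sg = 1 := by field_simp; ring
    rw [this]
    refine ⟨⟨by norm_num, by linarith⟩, by linarith⟩
  exact hne.mono (interior_maximal hsub hopen)

/-- affine image under `z ↦ a z + d` -/
theorem aff_interior {a : ℂ} (ha : a ≠ 0) (d : ℂ) (X : Set ℂ) :
    interior ((fun z => a * z + d) '' X) = (fun z => a * z + d) '' interior X := by
  have h := ((Homeomorph.mulLeft₀ a ha).trans (Homeomorph.addRight d)).image_interior X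
  have e : (⇑((Homeomorph.mulLeft₀ a ha).trans (Homeomorph.addRight d)) : ℂ → ℂ) =
      fun z => a * z + d := by
    funext z; rfl
  rw [e] at h
  exact h.symm

theorem bod_interior_nonempty (k : ℕ) (w : ℂ) : (interior (bod k w)).Nonempty := by
  unfold bod
  rw [aff_interior (pow_ne_zero _ zt_ne)]
  exact KK_interior_nonempty.image _

theorem aff_convex (a d : ℂ) {X : Set ℂ} (hX : Convex ℝ X) :
    Convex ℝ ((fun z => a * z + d) '' X) := by
  intro x hx y hy s t hs ht hst
  obtain ⟨x', hx', rfl⟩ := hx
  obtain ⟨y', hy', rfl⟩ := hy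
  refine ⟨s • x' + t • y', hX hx' hy' hs ht hst, ?_⟩
  simp only [Complex.real_smul]
  have : (s : ℂ) + t = 1 := by exact_mod_cast hst
  linear_combination (-d) * this

theorem mo_eq (a b : ℂ) (i : Idx) : mo a b i = fun z => a * z + (cc i + b - a * cc i) := by
  funext z; simp only [mo]; ring

theorem mo_image_convex (a b : ℂ) (i : Idx) : Convex ℝ (mo a b i '' body i) := by
  rw [mo_eq]; exact aff_convex _ _ (bod_convex _ _)

theorem mo_image_interior {a : ℂ} (ha : a ≠ 0) (b : ℂ) (i : Idx) :
    (interior (mo a b i '' body i)).Nonempty := by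
  rw [mo_eq, aff_interior ha]; exact (bod_interior_nonempty _ _).image _

end Pool.Agent.MP_a0a9ec_co
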