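import Pool.Agent.Lib.MP_a0a9ec_co.Limit

namespace Pool.Agent.MP_a0a9ec_co

open Real Filter Topology

theorem unit_re {a : ℂ} (h : ‖a‖ = 1) : (a - 1).re = -(1 / 2) * (‖a - 1‖ * ‖a - 1‖) := by
  have h1 : Complex.normSq a = 1 := by rw [Complex.normSq_eq_norm_sq, h]; norm_num
  have h2 : ‖a - 1‖ * ‖a - 1‖ = Complex.normSq (a - 1) := by
    rw [Complex.normSq_eq_norm_sq]; ring
  rw [h2]
  simp only [Complex.normSq_apply, Complex.sub_re, Complex.sub_im, Complex.one_re,
    Complex.one_im] at h1 ⊢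
  linarith

theorem rv_formula (t : Pt) (s : Zp) (Q A B : ℂ) (hA : A.re = 0)
    (hs : 2 * inn (evC t) Q = s.ev) :
    crs (evC t) (A * Q + B) = sg / 2 *
      rv t s (A.im / sg) (B.re - B.im / sg * (goldenRatio / 2)) (B.im / sg) := by
  have hsg := sg_pos
  rw [rv, ← hs]
  simp only [crs, inn, evC_re, evC_im, Complex.add_re, Complex.add_im, Complex.mul_re,
    Complex.mul_im, hA]
  field_simp
  ring

theorem body_mem_translate (m n p q : ℤ) (k : Fin 10) {z : ℂ} (hz : z ∈ bod k (cen p q)) :
    z + cen m n ∈ body (m + p, n + q, k) := by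
  simp only [body]
  rw [body_eq_translate]
  exact ⟨z, hz, rfl⟩

theorem limit_rigid (U : Ultrafilter ℕ) (F : Finset Idx) (a b : ℕ → Idx → ℂ)
    (ha : ∀ j i, ‖a j i‖ = 1) (hF : ∀ j i, i ∉ F → a j i = 1 ∧ b j i = 0)
    (hsep : ∀ j i i', i ≠ i' → Disjoint (interior (mo (a j i) (b j i) i '' body i))
      (interior (mo (a j i') (b j i') i' '' body i')))
    (hla : ∀ i, Tendsto (fun j => a j i) U (𝓝 1))
    (hlb : ∀ i, Tendsto (fun j => b j i) U (𝓝 0))
    (hne : ∀ j, ∃ i, ¬ (a j i = 1 ∧ b j i = 0)) : False := by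
  set S : ℕ → ℝ := fun j => ∑ i ∈ F, (‖a j i - 1‖ + ‖b j i‖) with hS
  have Spos : ∀ j, 0 < S j := by
    intro j
    obtain ⟨i, hi⟩ := hne j
    have hiF : i ∈ F := by
      by_contra hc; exact hi (hF j i hc)
    apply Finset.sum_pos' (fun i _ => by positivity)
    refine ⟨i, hiF, ?_⟩
    by_cases h1 : a j i = 1
    · have h2 : b j i ≠ 0 := fun h2 => hi ⟨h1, h2⟩
      have : 0 < ‖b j i‖ := norm_pos_iff.2 h2
      positivity
    · have : 0 < ‖a j i - 1‖ := norm_pos_iff.2 (sub_ne_zero.2 h1)
      positivity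
  have hle : ∀ j i, ‖a j i - 1‖ + ‖b j i‖ ≤ S j := by
    intro j i
    by_cases hi : i ∈ F
    · exact Finset.single_le_sum (f := fun i => ‖a j i - 1‖ + ‖b j i‖)
        (fun i _ => by positivity) hi
    · obtain ⟨h1, h2⟩ := hF j i hi
      rw [h1, h2]; simp only [sub_self, norm_zero, add_zero]; exact (Spos j).le
  have nS : ∀ j, ‖(S j : ℂ)‖ = S j := by
    intro j; rw [Complex.norm_real, Real.norm_of_nonneg (Spos j).le]
  have bA : ∀ i j, ‖(a j i - 1) / (S j : ℂ)‖ ≤ 1 := by
    intro i j
    rw [norm_div, nS, div_le_one (Spos j)]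
    have := hle j i; have := norm_nonneg (b j i); linarith
  have bB : ∀ i j, ‖b j i / (S j : ℂ)‖ ≤ 1 := by
    intro i j
    rw [norm_div, nS, div_le_one (Spos j)]
    have := hle j i; have := norm_nonneg (a j i - 1); linarith
  choose A hA using fun i => ultra_limit U _ 1 (bA i)
  choose B hB using fun i => ultra_limit U _ 1 (bB i)
  have Aout : ∀ i, i ∉ F → A i = 0 := by
    intro i hi
    have : Tendsto (fun j => (a j i - 1) / (S j : ℂ)) U (𝓝 0) := by
      have e : (fun j => (a j i - 1) / (S j : ℂ)) = fun _ => 0 := by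
        funext j; rw [(hF j i hi).1]; simp
      rw [e]; exact tendsto_const_nhds
    exact tendsto_nhds_unique (hA i) this
  have Bout : ∀ i, i ∉ F → B i = 0 := by
    intro i hi
    have : Tendsto (fun j => b j i / (S j : ℂ)) U (𝓝 0) := by
      have e : (fun j => b j i / (S j : ℂ)) = fun _ => 0 := by
        funext j; rw [(hF j i hi).2]; simp
      rw [e]; exact tendsto_const_nhds
    exact tendsto_nhds_unique (hB i) this
  have sum1 : ∑ i ∈ F, (‖A i‖ + ‖B i‖) = 1 := by
    have h1 : Tendsto (fun j => ∑ i ∈ F, (‖(a j i - 1) / (S j : ℂ)‖ + ‖b j i / (S j : ℂ)‖)) U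
        (𝓝 (∑ i ∈ F, (‖A i‖ + ‖B i‖))) :=
      tendsto_finsetSum _ (fun i _ => (hA i).norm.add (hB i).norm)
    have h2 : (fun j => ∑ i ∈ F, (‖(a j i - 1) / (S j : ℂ)‖ + ‖b j i / (S j : ℂ)‖)) =
        fun _ => (1 : ℝ) := by
      funext j
      have : ∀ i ∈ F, (‖(a j i - 1) / (S j : ℂ)‖ + ‖b j i / (S j : ℂ)‖) =
          (‖a j i - 1‖ + ‖b j i‖) / S j := by
        intro i _; rw [norm_div, norm_div, nS, ← add_div]
      rw [Finset.sum_congr rfl this, ← Finset.sum_div, div_self (Spos j).ne']
    rw [h2] at h1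
    exact tendsto_nhds_unique h1 tendsto_const_nhds
  have reA : ∀ i, (A i).re = 0 := by
    intro i
    have h1 : Tendsto (fun j => ((a j i - 1) / (S j : ℂ)).re) U (𝓝 (A i).re) :=
      (Complex.continuous_re.tendsto _).comp (hA i)
    have h2 : Tendsto (fun j => -(1 / 2) * (‖(a j i - 1) / (S j : ℂ)‖ * ‖a j i - 1‖)) U
        (𝓝 (-(1 / 2) * (‖A i‖ * ‖(1 : ℂ) - 1‖))) :=
      ((hA i).norm.mul ((hla i).sub tendsto_const_nhds).norm).const_mul _
    have h3 : (fun j => ((a j i - 1) / (S j : ℂ)).re) =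
        fun j => -(1 / 2) * (‖(a j i - 1) / (S j : ℂ)‖ * ‖a j i - 1‖) := by
      funext j
      rw [Complex.div_ofReal_re, unit_re (ha j i), norm_div, nS]
      ring
    rw [h3] at h1
    have := tendsto_nhds_unique h1 h2
    rw [this]; simp
  -- the rows
  set w : ℤ → ℤ → Fin 10 → ℝ := fun m n k => (A (m, n, k)).im / sg with hw
  set z : ℤ → ℤ → Fin 10 → ℝ := fun m n k => (B (m, n, k)).im / sg with hz
  set x : ℤ → ℤ → Fin 10 → ℝ := fun m n k =>
    (B (m, n, k)).re - (B (m, n, k)).im / sg * (goldenRatio / 2) with hx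
  have hrow : ∀ r ∈ rows, ∀ m n, 0 ≤ Lr r w x z m n := by
    intro r hr m n
    obtain ⟨g1, g2, g3, g4, g5, g6⟩ := row_geom hr
    set i : Idx := (m, n, r.kA) with hi
    set i' : Idx := (m + r.p, n + r.q, r.kB) with hi'
    have hii : i ≠ i' := by
      intro h; apply g3
      have := congrArg (fun x : Idx => x.2.2) h
      exact this
    have hse : ∀ j, ∃ μ : ℂ, ‖μ‖ = 1 ∧ ∀ X ∈ mo (a j i) (b j i) i '' body i,
        ∀ Y ∈ mo (a j i') (b j i') i' '' body i', 0 ≤ inn μ (Y - X) := by
      intro j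
      apply sep_exists (mo_image_convex _ _ _) (mo_image_convex _ _ _)
      · apply mo_image_interior
        intro h0; have := ha j i; rw [h0] at this; simp at this
      · apply mo_image_interior
        intro h0; have := ha j i'; rw [h0] at this; simp at this
      · exact hsep j i i' hii
    choose μ hμ1 hμ2 using hse
    obtain ⟨L, hL⟩ := ultra_limit U μ 1 (fun j => (hμ1 j).le)
    have hL1 : ‖L‖ = 1 := by
      have := hL.norm
      simp only [hμ1] at this
      exact (tendsto_nhds_unique this tendsto_const_nhds)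
    have hL0 : L ≠ 0 := by
      intro h0; rw [h0] at hL1; simp at hL1
    have hmo : ∀ (i : Idx) (X : ℂ), Tendsto (fun j => mo (a j i) (b j i) i X) U (𝓝 X) := by
      intro i X
      have : Tendsto (fun j => a j i * (X - cc i) + cc i + b j i) U
          (𝓝 (1 * (X - cc i) + cc i + 0)) :=
        (((hla i).mul tendsto_const_nhds).add tendsto_const_nhds).add (hlb i)
      have e : (1 * (X - cc i) + cc i + 0) = X := by ring
      rw [e] at this
      exact this
    have hLs : ∀ X ∈ body i, ∀ Y ∈ body i', 0 ≤ inn L (Y - X) := by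
      intro X hX Y hY
      have ht := tendsto_inn hL ((hmo i' Y).sub (hmo i X))
      refine ge_of_tendsto' ht (fun j => ?_)
      exact hμ2 j _ ⟨X, hX, rfl⟩ _ ⟨Y, hY, rfl⟩
    have mA : ∀ {X : ℂ}, X ∈ bod r.kA 0 → X + cen m n ∈ body i := by
      intro X hX
      rw [← cen00] at hX
      have := body_mem_translate m n 0 0 r.kA hX
      rwa [add_zero, add_zero] at this
    have mB : ∀ {Y : ℂ}, Y ∈ bod r.kB (cen r.p r.q) → Y + cen m n ∈ body i' := by
      intro Y hY
      exact body_mem_translate m n r.p r.q r.kB hY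
    obtain ⟨c, hc, hcv⟩ := g6 L hL0 (by
      intro X hX Y hY
      have := hLs _ (mA hX) _ (mB hY)
      rwa [add_sub_add_right_eq_sub] at this)
    set P' := evC r.P + cen m n with hP'
    have PA : P' ∈ body i := mA g1
    have PB : P' ∈ body i' := mB g2
    have ht : Tendsto (fun j => inn (μ j)
        (((a j i' - 1) / (S j : ℂ) * (P' - cc i') + b j i' / (S j : ℂ)) -
          ((a j i - 1) / (S j : ℂ) * (P' - cc i) + b j i / (S j : ℂ)))) U
        (𝓝 (inn L ((A i' * (P' - cc i') + B i') - (A i * (P' - cc i) + B i)))) := by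
      apply tendsto_inn hL
      exact (((hA i').mul tendsto_const_nhds).add (hB i')).sub
        (((hA i).mul tendsto_const_nhds).add (hB i))
    have h0 : 0 ≤ inn L ((A i' * (P' - cc i') + B i') - (A i * (P' - cc i) + B i)) := by
      refine ge_of_tendsto' ht (fun j => ?_)
      have h1 := hμ2 j _ ⟨P', PA, rfl⟩ _ ⟨P', PB, rfl⟩
      have e : mo (a j i') (b j i') i' P' - mo (a j i) (b j i) i P' =
          ((S j : ℝ) : ℂ) * (((a j i' - 1) / (S j : ℂ) * (P' - cc i') + b j i' / (S j : ℂ)) -
          ((a j i - 1) / (S j : ℂ) * (P' - cc i) + b j i / (S j : ℂ))) := by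
        have hne : (S j : ℂ) ≠ 0 := by exact_mod_cast (Spos j).ne'
        simp only [mo]
        field_simp
        ring
      rw [e, inn_smul_right] at h1
      have := Spos j
      by_contra hc'
      rw [not_le] at hc'
      nlinarith
    rw [hcv] at h0
    have e1 : P' - cc i = evC r.P := by simp only [hP', cc, hi]; ring
    have e2 : P' - cc i' = evC r.P - cen r.p r.q := by
      simp only [hP', cc, hi', cen_add]; ring
    rw [e1, e2] at h0
    have f1 := rv_formula r.t r.sB (evC r.P - cen r.p r.q) (A i') (B i') (reA i') g5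
    have f2 := rv_formula r.t r.sA (evC r.P) (A i) (B i) (reA i) g4
    have f3 : crs (evC r.t) ((A i' * (evC r.P - cen r.p r.q) + B i') -
        (A i * evC r.P + B i)) = sg / 2 * Lr r w x z m n := by
      have : ∀ u v : ℂ, crs (evC r.t) (u - v) = crs (evC r.t) u - crs (evC r.t) v := by
        intro u v; simp only [crs, Complex.sub_re, Complex.sub_im]; ring
      rw [this, f1, f2, ← mul_sub]
      rfl
    rw [f3] at h0
    have hsg := sg_pos
    have hcs : 0 < c * (sg / 2) := by positivity
    by_contra hcon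
    rw [not_le] at hcon
    have : c * (sg / 2 * Lr r w x z m n) = (c * (sg / 2)) * Lr r w x z m n := by ring
    rw [this] at h0
    nlinarith
  -- finite support
  obtain ⟨N, hN⟩ : ∃ N : ℤ, ∀ i ∈ F, |i.1| < N ∧ |i.2.1| < N := by
    refine ⟨∑ i ∈ F, (|i.1| + |i.2.1|) + 1, fun i hi => ?_⟩
    have := Finset.single_le_sum (f := fun i : Idx => |i.1| + |i.2.1|)
      (fun i _ => by positivity) hi
    have h1 := abs_nonneg i.1
    have h2 := abs_nonneg i.2.1
    constructor <;> linarith
  have hout : ∀ m n k, (N ≤ |m| ∨ N ≤ |n|) → ((m, n, k) : Idx) ∉ F := by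
    intro m n k h hF'
    have := hN _ hF'
    dsimp only at this
    rcases h with h | h <;> omega
  have key := rigid_lin w x z N
    (fun m n k h => by simp only [hw, Aout _ (hout m n k h), Complex.zero_im, zero_div])
    (fun m n k h => by simp only [hx, Bout _ (hout m n k h), Complex.zero_im, Complex.zero_re,
      zero_div, zero_mul, sub_zero])
    (fun m n k h => by simp only [hz, Bout _ (hout m n k h), Complex.zero_im, zero_div]) hrow
  have hsg := sg_pos
  have A0 : ∀ i, A i = 0 := by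
    rintro ⟨m, n, k⟩
    have h1 := (key m n k).1
    simp only [hw, div_eq_zero_iff, hsg.ne', or_false] at h1
    exact Complex.ext (reA _) h1
  have B0 : ∀ i, B i = 0 := by
    rintro ⟨m, n, k⟩
    have h1 := (key m n k).2.2
    have h2 := (key m n k).2.1
    simp only [hz, div_eq_zero_iff, hsg.ne', or_false] at h1
    simp only [hx, h1, zero_div, zero_mul, sub_zero] at h2
    exact Complex.ext h2 h1
  simp only [A0, B0, norm_zero, add_zero, Finset.sum_const_zero] at sum1
  exact zero_ne_one sum1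

end Pool.Agent.MP_a0a9ec_co
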