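import Pool.Agent.Lib.MP_a0a9ec_co.Pack

/-! The bodies indexed by `ℤ × ℤ × Fin 10`: pairwise disjoint interiors and exactly 11 contacts. -/

namespace Pool.Agent.MP_a0a9ec_co

open Real

noncomputable def cen (m n : ℤ) : ℂ := m * UU + n * WW

noncomputable def body (i : ℤ × ℤ × Fin 10) : Set ℂ := bod (i.2.2 : ℕ) (cen i.1 i.2.1)

theorem cen_add (m n p q : ℤ) : cen (m + p) (n + q) = cen m n + cen p q := by
  simp only [cen]; push_cast; ring

theorem two_normSq_evC (p : Pt) : 2 * Complex.normSq (evC p) = (Pt.ip2 p p).ev := by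
  rw [← inn_evC, Complex.normSq_apply, inn]

theorem KVl_norm : KVl.all (fun p => ((⟨420, 610⟩ : Zp).sub (Pt.ip2 p p)).nonneg) = true := by
  decide +kernel

noncomputable def RR : ℝ := √(210 + 305 * goldenRatio)

theorem phi_pos : 0 < goldenRatio := goldenRatio_pos

theorem RR_sq : RR ^ 2 = 210 + 305 * goldenRatio := by
  have := phi_pos
  unfold RR; rw [Real.sq_sqrt (by positivity)]

theorem RR_nonneg : 0 ≤ RR := Real.sqrt_nonneg _

theorem KK_ball : KK ⊆ Metric.closedBall 0 RR := by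
  apply convexHull_min
  · rintro _ ⟨p, hp, rfl⟩
    have h := KVl_norm
    simp only [List.all_eq_true] at h
    have h1 := Zp.nonneg_sound (h p hp)
    rw [Zp.ev_sub, ← two_normSq_evC] at h1
    have h2 : Zp.ev ⟨420, 610⟩ = 420 + 610 * goldenRatio := by simp [Zp.ev]
    rw [h2] at h1
    rw [mem_closedBall_zero_iff]
    apply Real.le_sqrt_of_sq_le
    rw [← Complex.normSq_eq_norm_sq]
    linarith
  · exact convex_closedBall _ _

theorem bod_ball (k : ℕ) (w : ℂ) : ∀ x ∈ bod k w, ‖x - w‖ ≤ RR := by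
  rintro _ ⟨z, hz, rfl⟩
  have := KK_ball hz
  rw [mem_closedBall_zero_iff] at this
  simp only [add_sub_cancel_right, norm_mul, norm_pow, zt_norm, one_pow, one_mul]
  exact this

theorem normSq_cen (p q : ℤ) : 2 * Complex.normSq (cen p q) =
    (930 + 1390 * goldenRatio) * (p ^ 2 + q ^ 2) - (160 + 30 * goldenRatio) * (p * q) := by
  have h1 := inn_evC uP uP
  have h2 := inn_evC vP vP
  have h3 := inn_evC uP vP
  have e1 : Pt.ip2 uP uP = ⟨930, 1390⟩ := by decide
  have e2 : Pt.ip2 vP vP = ⟨930, 1390⟩ := by decide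
  have e3 : Pt.ip2 uP vP = ⟨-80, -15⟩ := by decide
  rw [e1] at h1; rw [e2] at h2; rw [e3] at h3
  simp only [Zp.ev, inn] at h1 h2 h3
  push_cast at h1 h2 h3
  simp only [cen, Complex.normSq_apply, Complex.add_re, Complex.add_im, Complex.mul_re,
    Complex.mul_im, Complex.intCast_re, Complex.intCast_im, UU, WW]
  linear_combination (p : ℝ) ^ 2 * h1 + (q : ℝ) ^ 2 * h2 + 2 * (p : ℝ) * q * h3

theorem far_disj {k l : ℕ} {p q : ℤ} (h : 2 ≤ p ^ 2 + q ^ 2) :
    Disjoint (bod k 0) (bod l (cen p q)) := by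
  rw [Set.disjoint_left]
  intro x hx hx'
  have a1 := bod_ball _ _ x hx
  have a2 := bod_ball _ _ x hx'
  have a3 : ‖cen p q‖ ≤ 2 * RR := by
    calc ‖cen p q‖ = ‖(x - 0) - (x - cen p q)‖ := by congr 1; ring
      _ ≤ ‖x - 0‖ + ‖x - cen p q‖ := norm_sub_le _ _
      _ ≤ 2 * RR := by linarith
  have a4 : ‖cen p q‖ ^ 2 ≤ (2 * RR) ^ 2 := by
    apply pow_le_pow_left₀ (norm_nonneg _) a3
  rw [← Complex.normSq_eq_norm_sq, mul_pow, RR_sq] at a4
  have a5 := normSq_cen p q
  have hφ := phi_pos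
  have h' : (2 : ℝ) ≤ (p : ℝ) ^ 2 + (q : ℝ) ^ 2 := by exact_mod_cast h
  nlinarith [sq_nonneg ((p : ℝ) - q), mul_nonneg hφ.le (sq_nonneg ((p : ℝ) - q)),
    mul_nonneg hφ.le (sub_nonneg.2 h')]

/-- adjacency test -/
def adjB (p q : ℤ) (k l : ℕ) : Bool :=
  (decide (p = 0) && decide (q = 0) && !(k == l)) ||
  (decide (p = 1) && decide (q = 0) && conU.contains (k, l)) ||
  (decide (p = -1) && decide (q = 0) && conU.contains (l, k)) ||
  (decide (p = 0) && decide (q = 1) && conV.contains (k, l)) ||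
  (decide (p = 0) && decide (q = -1) && conV.contains (l, k))

theorem cell_cases (p q : ℤ) : (p = 0 ∧ q = 0) ∨ (p = 1 ∧ q = 0) ∨ (p = -1 ∧ q = 0) ∨
    (p = 0 ∧ q = 1) ∨ (p = 0 ∧ q = -1) ∨ 2 ≤ p ^ 2 + q ^ 2 := by
  by_cases h : 2 ≤ p ^ 2 + q ^ 2
  · tauto
  · rw [not_le] at h
    have h1 : -1 ≤ p := by nlinarith [sq_nonneg q]
    have h2 : p ≤ 1 := by nlinarith [sq_nonneg q]
    have h3 : -1 ≤ q := by nlinarith [sq_nonneg p]
    have h4 : q ≤ 1 := by nlinarith [sq_nonneg p]
    interval_cases p <;> interval_cases q <;> simp_all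

theorem cen00 : cen 0 0 = 0 := by simp [cen]
theorem cen10 : cen 1 0 = UU := by simp [cen]
theorem cen01 : cen 0 1 = WW := by simp [cen]
theorem cenm10 : cen (-1) 0 = -UU := by simp [cen]
theorem cen0m1 : cen 0 (-1) = -WW := by simp [cen]

theorem swap_inter {k l : ℕ} {w : ℂ} (h : (bod l 0 ∩ bod k w).Nonempty) :
    (bod k 0 ∩ bod l (-w)).Nonempty := by
  obtain ⟨x, h1, h2⟩ := h
  refine ⟨x - w, ?_, ?_⟩
  · have := bod_translate k 0 w
    rw [zero_add] at this; rw [this] at h2
    obtain ⟨y, hy, rfl⟩ := h2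
    simpa using hy
  · have := bod_translate l 0 (-w)
    rw [zero_add] at this; rw [this]
    exact ⟨x, h1, by simp only []; ring⟩

theorem touch_iff {p q : ℤ} {k l : ℕ} (hk : k < 10) (hl : l < 10) :
    (bod k 0 ∩ bod l (cen p q)).Nonempty ↔ (adjB p q k l = true ∨ (p = 0 ∧ q = 0 ∧ k = l)) := by
  have hU : ∀ k l : ℕ, k < 10 → l < 10 → ((bod k 0 ∩ bod l UU).Nonempty ↔ (k, l) ∈ conU) := by
    intro k l hk hl
    constructor
    · intro h
      by_contra hc
      exact Set.not_disjoint_iff_nonempty_inter.2 h (disU hk hl hc)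
    · exact touchU
  have hV : ∀ k l : ℕ, k < 10 → l < 10 → ((bod k 0 ∩ bod l WW).Nonempty ↔ (k, l) ∈ conV) := by
    intro k l hk hl
    constructor
    · intro h
      by_contra hc
      exact Set.not_disjoint_iff_nonempty_inter.2 h (disV hk hl hc)
    · exact touchV
  have sw : ∀ (w : ℂ), ((bod k 0 ∩ bod l (-w)).Nonempty ↔ (bod l 0 ∩ bod k w).Nonempty) := by
    intro w
    constructor
    · intro h
      have := swap_inter (w := -w) h
      rwa [neg_neg] at this
    · exact swap_inter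
  rcases cell_cases p q with ⟨rfl, rfl⟩ | ⟨rfl, rfl⟩ | ⟨rfl, rfl⟩ | ⟨rfl, rfl⟩ | ⟨rfl, rfl⟩ | h
  · rw [cen00]
    constructor
    · intro _
      by_cases h : k = l
      · right; simp [h]
      · left; simp [adjB, h]
    · intro _
      exact ⟨0, cen_mem_bod _ _, cen_mem_bod _ _⟩
  · rw [cen10, hU k l hk hl]; simp [adjB]
  · rw [cenm10, sw, hU l k hl hk]; simp [adjB]
  · rw [cen01, hV k l hk hl]; simp [adjB]
  · rw [cen0m1, sw, hV l k hl hk]; simp [adjB]
  · constructor
    · intro h'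
      exact absurd (far_disj h) (Set.not_disjoint_iff_nonempty_inter.2 h')
    · intro h'
      exfalso
      rcases h' with h' | ⟨rfl, rfl, _⟩
      · simp only [adjB, Bool.or_eq_true, Bool.and_eq_true, decide_eq_true_eq] at h'
        rcases h' with (((h' | h') | h') | h') | h' <;>
        · obtain ⟨⟨rfl, rfl⟩, _⟩ := h'
          norm_num at h
      · norm_num at h

theorem idisj_rel {p q : ℤ} {k l : ℕ} (hk : k < 10) (hl : l < 10)
    (hne : ¬ (p = 0 ∧ q = 0 ∧ k = l)) :
    Disjoint (interior (bod k 0)) (interior (bod l (cen p q))) := by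
  have sw : ∀ (w : ℂ), Disjoint (interior (bod l 0)) (interior (bod k w)) →
      Disjoint (interior (bod k 0)) (interior (bod l (-w))) := by
    intro w h
    have e1 := bod_translate k w (-w)
    have e2 := bod_translate l 0 (-w)
    rw [add_neg_cancel] at e1
    rw [zero_add] at e2
    rw [e1, e2, interior_translate, interior_translate]
    exact (disj_translate (-w) h).symm
  rcases cell_cases p q with ⟨rfl, rfl⟩ | ⟨rfl, rfl⟩ | ⟨rfl, rfl⟩ | ⟨rfl, rfl⟩ | ⟨rfl, rfl⟩ | h
  · rw [cen00]; exact dis0 hk hl (fun h => hne ⟨rfl, rfl, h⟩)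
  · rw [cen10]; exact idisU hk hl
  · rw [cenm10]; exact sw _ (idisU hl hk)
  · rw [cen01]; exact idisV hk hl
  · rw [cen0m1]; exact sw _ (idisV hl hk)
  · exact (far_disj h).mono interior_subset interior_subset

theorem body_eq_translate (m n p q : ℤ) (l : ℕ) :
    bod l (cen (m + p) (n + q)) = (fun z => z + cen m n) '' bod l (cen p q) := by
  rw [cen_add, add_comm, bod_translate]

theorem body_idisj {i j : ℤ × ℤ × Fin 10} (h : i ≠ j) :
    Disjoint (interior (body i)) (interior (body j)) := by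
  obtain ⟨m, n, k⟩ := i
  obtain ⟨m', n', l⟩ := j
  have e1 := body_eq_translate m n 0 0 k
  have e2 := body_eq_translate m n (m' - m) (n' - n) l
  rw [add_zero, add_zero, cen00] at e1
  rw [add_sub_cancel, add_sub_cancel] at e2
  simp only [body]
  rw [e1, e2, interior_translate, interior_translate]
  apply disj_translate
  apply idisj_rel k.2 l.2
  rintro ⟨h1, h2, h3⟩
  apply h
  have : k = l := Fin.ext h3
  rw [this, show m' = m by omega, show n' = n by omega]

theorem body_touch_iff (m n m' n' : ℤ) (k l : Fin 10) :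
    (body (m, n, k) ∩ body (m', n', l)).Nonempty ↔
      (adjB (m' - m) (n' - n) k l = true ∨ (m' - m = 0 ∧ n' - n = 0 ∧ (k : ℕ) = l)) := by
  rw [← touch_iff k.2 l.2]
  have e1 := body_eq_translate m n 0 0 k
  have e2 := body_eq_translate m n (m' - m) (n' - n) l
  rw [add_zero, add_zero, cen00] at e1
  rw [add_sub_cancel, add_sub_cancel] at e2
  simp only [body]
  rw [e1, e2, ← Set.image_inter (by intro x y hxy; simpa using hxy)]
  exact Set.image_nonempty

/-- the relative neighbours of the body number `k` -/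
def nb0 (k : Fin 10) : Finset (ℤ × ℤ × Fin 10) :=
  ((([0, 1, -1] : List ℤ).toFinset) ×ˢ ((([0, 1, -1] : List ℤ).toFinset) ×ˢ
    (Finset.univ : Finset (Fin 10)))).filter (fun x => adjB x.1 x.2.1 k x.2.2 = true)

theorem nb0_card (k : Fin 10) : (nb0 k).card = 11 := by
  revert k; decide +kernel

theorem mem_nb0 {k : Fin 10} {x : ℤ × ℤ × Fin 10} :
    x ∈ nb0 k ↔ adjB x.1 x.2.1 k x.2.2 = true := by
  simp only [nb0, Finset.mem_filter, Finset.mem_product, List.mem_toFinset, Finset.mem_univ,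
    and_true, and_iff_right_iff_imp, List.mem_cons, List.not_mem_nil, or_false]
  intro h
  simp only [adjB, Bool.or_eq_true, Bool.and_eq_true, decide_eq_true_eq] at h
  omega

theorem adjB_irrefl (k : ℕ) : adjB 0 0 k k = false := by simp [adjB]

end Pool.Agent.MP_a0a9ec_co
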