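import Pool.Agent.Lib.MP_a0a9ec_co.Geom

/-! Certificates: which pairs of copies touch, which are disjoint; all interiors are disjoint. -/

namespace Pool.Agent.MP_a0a9ec_co

open Real

def tab0 : List (List (ℤ × ℤ × ℤ × ℤ × ℤ × ℤ)) :=
 [[(0,0,0,0,0,0), (0,0,1,0,0,0), (0,0,1,0,0,0), (0,0,1,0,0,0), (0,0,1,0,0,0), (0,0,1,0,0,0), (-1,0,0,1,0,0), (0,-1,0,1,0,0), (0,-1,1,0,0,0), (-1,0,0,0,0,0)],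
  [(0,0,-1,0,0,0), (0,0,0,0,0,0), (-1,0,0,1,0,0), (-1,0,0,1,0,0), (-1,0,0,1,0,0), (-1,0,0,1,0,0), (-1,0,0,1,0,0), (0,-1,0,1,0,0), (0,-1,1,0,0,0), (-1,0,0,0,0,0)],
  [(0,0,-1,0,0,0), (1,0,0,-1,0,0), (0,0,0,0,0,0), (0,-1,0,1,0,0), (0,-1,0,1,0,0), (0,-1,0,1,0,0), (0,-1,0,1,0,0), (0,-1,0,1,0,0), (0,-1,1,0,0,0), (-1,0,0,0,0,0)],
  [(0,0,-1,0,0,0), (1,0,0,-1,0,0), (0,1,0,-1,0,0), (0,0,0,0,0,0), (0,-1,1,0,0,0), (0,-1,1,0,0,0), (0,-1,1,0,0,0), (0,-1,1,0,0,0), (0,-1,1,0,0,0), (-1,0,0,0,0,0)],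
  [(0,0,-1,0,0,0), (1,0,0,-1,0,0), (0,1,0,-1,0,0), (0,1,-1,0,0,0), (0,0,0,0,0,0), (-1,0,0,0,0,0), (-1,0,0,0,0,0), (-1,0,0,0,0,0), (-1,0,0,0,0,0), (-1,0,0,0,0,0)],
  [(1,0,0,0,0,0), (1,0,0,0,0,0), (1,0,0,0,0,0), (1,0,0,0,0,0), (1,0,0,0,0,0), (0,0,0,0,0,0), (0,0,-1,0,0,0), (0,0,-1,0,0,0), (0,0,-1,0,0,0), (0,0,-1,0,0,0)],
  [(1,0,0,0,0,0), (1,0,0,0,0,0), (1,0,0,0,0,0), (1,0,0,0,0,0), (1,0,0,0,0,0), (0,0,1,0,0,0), (0,0,0,0,0,0), (1,0,0,-1,0,0), (1,0,0,-1,0,0), (1,0,0,-1,0,0)],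
  [(1,0,0,0,0,0), (1,0,0,0,0,0), (1,0,0,0,0,0), (1,0,0,0,0,0), (1,0,0,0,0,0), (0,0,1,0,0,0), (-1,0,0,1,0,0), (0,0,0,0,0,0), (0,1,0,-1,0,0), (0,1,0,-1,0,0)],
  [(1,0,0,0,0,0), (1,0,0,0,0,0), (1,0,0,0,0,0), (1,0,0,0,0,0), (1,0,0,0,0,0), (0,0,1,0,0,0), (-1,0,0,1,0,0), (0,-1,0,1,0,0), (0,0,0,0,0,0), (0,1,-1,0,0,0)],
  [(1,0,0,0,0,0), (1,0,0,0,0,0), (1,0,0,0,0,0), (1,0,0,0,0,0), (1,0,0,0,0,0), (0,0,1,0,0,0), (-1,0,0,1,0,0), (0,-1,0,1,0,0), (0,-1,1,0,0,0), (0,0,0,0,0,0)]]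

def tabU : List (List (ℤ × ℤ × ℤ × ℤ × ℤ × ℤ)) :=
 [[(0,1,-1,0,48,0), (0,1,-1,0,48,0), (0,1,-1,0,48,0), (0,1,-1,0,48,0), (1,0,0,0,22,0), (2,0,3,-2,15,10), (1,0,-1,-1,10,25), (1,0,0,-1,43,0), (0,1,0,-1,56,0), (0,1,0,-1,56,0)],
  [(1,0,0,-1,32,0), (1,0,0,-1,32,0), (0,1,0,-1,52,0), (0,1,0,-1,44,0), (3,0,-2,0,25,35), (1,0,-1,-1,10,0), (1,0,0,-1,24,0), (1,0,0,-1,32,0), (1,0,0,-1,32,0), (1,0,0,-1,32,0)],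
  [(1,0,0,-1,24,0), (1,0,0,-1,24,0), (0,1,0,-1,41,0), (0,1,0,-1,34,0), (0,1,0,-1,23,0), (1,0,0,-1,6,0), (1,0,0,-1,17,0), (1,0,0,-1,24,0), (1,0,0,-1,24,0), (1,0,0,-1,24,0)],
  [(1,0,0,-1,24,0), (1,0,0,-1,24,0), (0,1,0,-1,34,0), (0,1,0,-1,26,0), (0,1,0,-1,15,0), (0,1,0,-1,11,0), (1,0,0,-1,17,0), (1,0,0,-1,24,0), (1,0,0,-1,24,0), (1,0,0,-1,24,0)],
  [(1,0,0,-1,24,0), (1,0,0,-1,24,0), (0,1,0,-1,34,0), (0,1,0,-1,26,0), (0,1,0,-1,15,0), (0,1,0,-1,11,0), (1,0,0,-1,17,0), (1,0,0,-1,24,0), (1,0,0,-1,24,0), (1,0,0,-1,24,0)],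
  [(1,0,0,-1,24,0), (1,0,0,-1,24,0), (0,1,0,-1,34,0), (0,1,0,-1,26,0), (0,1,-1,0,22,0), (0,1,-1,0,12,0), (1,0,0,-1,17,0), (1,0,0,-1,24,0), (1,0,0,-1,24,0), (1,0,0,-1,24,0)],
  [(1,0,0,-1,24,0), (1,0,0,-1,24,0), (0,1,0,-1,34,0), (0,1,0,-1,26,0), (0,1,-1,0,22,0), (0,1,-1,0,12,0), (1,0,0,-1,17,0), (1,0,0,-1,24,0), (1,0,0,-1,24,0), (1,0,0,-1,24,0)],
  [(0,1,0,-1,34,0), (0,1,0,-1,34,0), (0,1,0,-1,34,0), (0,1,0,-1,26,0), (0,1,-1,0,22,0), (0,1,-1,0,12,0), (0,1,0,-1,15,0), (0,1,0,-1,26,0), (0,1,0,-1,34,0), (0,1,0,-1,34,0)],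
  [(0,1,0,-1,41,0), (0,1,0,-1,41,0), (0,1,0,-1,41,0), (0,1,-1,0,30,0), (0,1,-1,0,22,0), (0,1,-1,0,12,0), (0,1,0,-1,23,0), (0,1,0,-1,34,0), (0,1,0,-1,41,0), (0,1,0,-1,41,0)],
  [(0,1,-1,0,37,0), (0,1,-1,0,37,0), (0,1,-1,0,37,0), (0,1,-1,0,37,0), (1,0,0,0,15,0), (1,0,0,0,7,0), (3,0,-2,0,15,10), (0,1,0,-1,44,0), (0,1,0,-1,52,0), (0,1,0,-1,52,0)]]

def tabV : List (List (ℤ × ℤ × ℤ × ℤ × ℤ × ℤ)) :=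
 [[(1,0,0,0,37,0), (1,0,0,0,37,0), (1,0,0,0,37,0), (1,0,0,0,37,0), (1,0,0,0,37,0), (0,0,1,0,34,0), (0,0,1,0,26,0), (0,0,1,0,15,0), (0,0,1,0,11,0), (1,0,0,0,30,0)],
  [(0,0,1,0,34,0), (0,0,1,0,41,0), (0,0,1,0,41,0), (0,0,1,0,41,0), (0,0,1,0,41,0), (0,0,1,0,41,0), (0,0,1,0,34,0), (-1,0,0,1,17,0), (-1,0,0,1,6,0), (0,0,1,0,23,0)],
  [(1,0,0,0,53,0), (0,0,1,0,52,0), (0,0,1,0,52,0), (0,0,1,0,52,0), (0,0,1,0,52,0), (0,0,1,0,52,0), (-1,0,0,1,32,0), (-1,0,0,1,24,0), (-1,-1,0,2,10,0), (2,1,7,-4,45,85)],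
  [(1,0,0,0,48,0), (1,0,0,0,48,0), (1,0,0,0,48,0), (1,0,0,0,48,0), (1,0,0,0,48,0), (0,0,1,0,56,0), (-1,0,0,1,43,0), (-1,-1,0,2,10,25), (8,-1,-2,-1,5,40), (0,1,-1,0,22,0)],
  [(1,0,0,0,37,0), (1,0,0,0,37,0), (1,0,0,0,37,0), (1,0,0,0,37,0), (1,0,0,0,37,0), (1,0,0,0,30,0), (0,0,1,0,44,0), (2,1,7,-4,5,40), (0,1,-1,0,7,0), (1,0,0,0,30,0)],
  [(1,0,0,0,30,0), (1,0,0,0,30,0), (1,0,0,0,30,0), (1,0,0,0,30,0), (1,0,0,0,30,0), (1,0,0,0,22,0), (0,0,1,0,34,0), (1,0,0,0,7,0), (1,0,0,0,12,0), (1,0,0,0,22,0)],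
  [(1,0,0,0,30,0), (1,0,0,0,30,0), (1,0,0,0,30,0), (1,0,0,0,30,0), (1,0,0,0,30,0), (1,0,0,0,22,0), (0,0,1,0,26,0), (0,0,1,0,15,0), (1,0,0,0,12,0), (1,0,0,0,22,0)],
  [(1,0,0,0,30,0), (1,0,0,0,30,0), (1,0,0,0,30,0), (1,0,0,0,30,0), (1,0,0,0,30,0), (1,0,0,0,22,0), (0,0,1,0,26,0), (0,0,1,0,15,0), (1,0,0,0,12,0), (1,0,0,0,22,0)],
  [(1,0,0,0,30,0), (1,0,0,0,30,0), (1,0,0,0,30,0), (1,0,0,0,30,0), (1,0,0,0,30,0), (1,0,0,0,22,0), (0,0,1,0,26,0), (0,0,1,0,15,0), (1,0,0,0,12,0), (1,0,0,0,22,0)],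
  [(1,0,0,0,30,0), (1,0,0,0,30,0), (1,0,0,0,30,0), (1,0,0,0,30,0), (1,0,0,0,30,0), (1,0,0,0,22,0), (0,0,1,0,26,0), (0,0,1,0,15,0), (1,0,0,0,12,0), (1,0,0,0,22,0)]]

def getE (tab : List (List (ℤ × ℤ × ℤ × ℤ × ℤ × ℤ))) (k l : ℕ) : Pt × Zp :=
  match (tab.getD k []).getD l (0, 0, 0, 0, 0, 0) with
  | (a, b, c, d, e, f) => (⟨⟨a, b⟩, ⟨c, d⟩⟩, ⟨e, f⟩)

def conU : List (ℕ × ℕ) := [(0, 5), (0, 6), (1, 5), (1, 4), (9, 6)]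
def conV : List (ℕ × ℕ) := [(3, 8), (3, 7), (2, 8), (2, 9), (4, 7)]

theorem chk0 : (List.range 10).all (fun k => (List.range 10).all (fun l =>
    k == l || chkW k l oP (getE tab0 k l).1 (getE tab0 k l).2)) = true := by
  decide +kernel

theorem chkUS : (List.range 10).all (fun k => (List.range 10).all (fun l =>
    conU.contains (k, l) || chkS k l uP (getE tabU k l).1 (getE tabU k l).2)) = true := by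
  decide +kernel

theorem chkVS : (List.range 10).all (fun k => (List.range 10).all (fun l =>
    conV.contains (k, l) || chkS k l vP (getE tabV k l).1 (getE tabV k l).2)) = true := by
  decide +kernel

theorem chkUW : conU.all (fun p => chkW p.1 p.2 uP (getE tabU p.1 p.2).1 (getE tabU p.1 p.2).2)
    = true := by
  decide +kernel

theorem chkVW : conV.all (fun p => chkW p.1 p.2 vP (getE tabV p.1 p.2).1 (getE tabV p.1 p.2).2)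
    = true := by
  decide +kernel

/-- contact data: `k, l`, the common point, and its two representations on edges -/
structure CD where
  k : ℕ
  l : ℕ
  P : Pt
  j1 : Pt
  j2 : Pt
  a : Zp
  b : Zp
  j3 : Pt
  j4 : Pt
  c : Zp
  d : Zp

def vT : Pt := ⟨⟨1, 8⟩, ⟨1, 8⟩⟩
def vV : Pt := ⟨⟨5, 0⟩, ⟨15, 0⟩⟩
def vV' : Pt := ⟨⟨15, 0⟩, ⟨5, 0⟩⟩
def vE : Pt := ⟨⟨0, 0⟩, ⟨10, 0⟩⟩
def vE' : Pt := ⟨⟨10, 0⟩, ⟨0, 0⟩⟩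

def cdU : List CD :=
  [⟨0, 5, vV, vV, vV, ⟨1, 0⟩, ⟨0, 0⟩, vT, vV, ⟨2, -1⟩, ⟨0, 1⟩⟩,
   ⟨0, 6, vT, vT, vT, ⟨1, 0⟩, ⟨0, 0⟩, vE', vV', ⟨6, -2⟩, ⟨-1, 2⟩⟩,
   ⟨1, 5, ⟨⟨1, -2⟩, ⟨11, 3⟩⟩, vE', vV', ⟨6, -2⟩, ⟨-1, 2⟩, vT, vT, ⟨1, 0⟩, ⟨0, 0⟩⟩,
   ⟨1, 4, ⟨⟨-1, -8⟩, ⟨9, 17⟩⟩, vT, vT, ⟨1, 0⟩, ⟨0, 0⟩, vT, vV, ⟨2, -1⟩, ⟨0, 1⟩⟩,
   ⟨9, 6, ⟨⟨3, 14⟩, ⟨3, -6⟩⟩, vT, vV, ⟨2, -1⟩, ⟨0, 1⟩, vT, vT, ⟨1, 0⟩, ⟨0, 0⟩⟩]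

def cdV : List CD :=
  [⟨3, 8, ⟨⟨0, -20⟩, ⟨5, 15⟩⟩, vV', vV', ⟨1, 0⟩, ⟨0, 0⟩, vV', vT, ⟨0, 1⟩, ⟨2, -1⟩⟩,
   ⟨3, 7, ⟨⟨-16, -18⟩, ⟨9, 17⟩⟩, vT, vT, ⟨1, 0⟩, ⟨0, 0⟩, vV, vE, ⟨-1, 2⟩, ⟨6, -2⟩⟩,
   ⟨2, 8, ⟨⟨-1, -13⟩, ⟨4, 12⟩⟩, vV, vE, ⟨-1, 2⟩, ⟨6, -2⟩, vT, vT, ⟨1, 0⟩, ⟨0, 0⟩⟩,
   ⟨2, 9, ⟨⟨-9, -17⟩, ⟨16, 18⟩⟩, vT, vT, ⟨1, 0⟩, ⟨0, 0⟩, vV', vT, ⟨0, 1⟩, ⟨2, -1⟩⟩,
   ⟨4, 7, ⟨⟨-8, -14⟩, ⟨-3, 11⟩⟩, vV', vT, ⟨0, 1⟩, ⟨2, -1⟩, vT, vT, ⟨1, 0⟩, ⟨0, 0⟩⟩]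

def CD.chk (w : Pt) (x : CD) : Bool :=
  chkE x.k oP x.P x.j1 x.j2 x.a x.b && chkE x.l w x.P x.j3 x.j4 x.c x.d

theorem cdU_chk : cdU.all (CD.chk uP) = true := by decide +kernel
theorem cdV_chk : cdV.all (CD.chk vP) = true := by decide +kernel
theorem cdU_map : cdU.map (fun x => (x.k, x.l)) = conU := by decide +kernel
theorem cdV_map : cdV.map (fun x => (x.k, x.l)) = conV := by decide +kernel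

/-! ### consequences in the plane -/

noncomputable abbrev UU : ℂ := evC uP
noncomputable abbrev WW : ℂ := evC vP

theorem dis0 {k l : ℕ} (hk : k < 10) (hl : l < 10) (h : k ≠ l) :
    Disjoint (interior (bod k 0)) (interior (bod l 0)) := by
  have h0 := chk0
  simp only [List.all_eq_true, List.mem_range] at h0
  have h1 := h0 k hk l hl
  simp only [Bool.or_eq_true, beq_iff_eq, h, false_or] at h1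
  have := chkW_sound h1
  rwa [evC_oP] at this

theorem disU {k l : ℕ} (hk : k < 10) (hl : l < 10) (h : (k, l) ∉ conU) :
    Disjoint (bod k 0) (bod l UU) := by
  have h0 := chkUS
  simp only [List.all_eq_true, List.mem_range] at h0
  have h1 := h0 k hk l hl
  simp only [Bool.or_eq_true, List.contains_iff_mem, h, false_or] at h1
  exact chkS_sound h1

theorem disV {k l : ℕ} (hk : k < 10) (hl : l < 10) (h : (k, l) ∉ conV) :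
    Disjoint (bod k 0) (bod l WW) := by
  have h0 := chkVS
  simp only [List.all_eq_true, List.mem_range] at h0
  have h1 := h0 k hk l hl
  simp only [Bool.or_eq_true, List.contains_iff_mem, h, false_or] at h1
  exact chkS_sound h1

theorem idisU {k l : ℕ} (hk : k < 10) (hl : l < 10) :
    Disjoint (interior (bod k 0)) (interior (bod l UU)) := by
  by_cases h : (k, l) ∈ conU
  · have h0 := chkUW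
    simp only [List.all_eq_true] at h0
    exact chkW_sound (h0 (k, l) h)
  · exact (disU hk hl h).mono interior_subset interior_subset

theorem idisV {k l : ℕ} (hk : k < 10) (hl : l < 10) :
    Disjoint (interior (bod k 0)) (interior (bod l WW)) := by
  by_cases h : (k, l) ∈ conV
  · have h0 := chkVW
    simp only [List.all_eq_true] at h0
    exact chkW_sound (h0 (k, l) h)
  · exact (disV hk hl h).mono interior_subset interior_subset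

theorem touchU {k l : ℕ} (h : (k, l) ∈ conU) : (bod k 0 ∩ bod l UU).Nonempty := by
  rw [← cdU_map, List.mem_map] at h
  obtain ⟨x, hx, he⟩ := h
  have h0 := cdU_chk
  simp only [List.all_eq_true] at h0
  have h1 := h0 x hx
  simp only [CD.chk, Bool.and_eq_true] at h1
  have e1 : x.k = k := congrArg Prod.fst he
  have e2 : x.l = l := congrArg Prod.snd he
  have a1 := chkE_sound h1.1
  have a2 := chkE_sound h1.2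
  rw [e1, evC_oP] at a1
  rw [e2] at a2
  exact ⟨_, a1, a2⟩

theorem touchV {k l : ℕ} (h : (k, l) ∈ conV) : (bod k 0 ∩ bod l WW).Nonempty := by
  rw [← cdV_map, List.mem_map] at h
  obtain ⟨x, hx, he⟩ := h
  have h0 := cdV_chk
  simp only [List.all_eq_true] at h0
  have h1 := h0 x hx
  simp only [CD.chk, Bool.and_eq_true] at h1
  have e1 : x.k = k := congrArg Prod.fst he
  have e2 : x.l = l := congrArg Prod.snd he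
  have a1 := chkE_sound h1.1
  have a2 := chkE_sound h1.2
  rw [e1, evC_oP] at a1
  rw [e2] at a2
  exact ⟨_, a1, a2⟩

end Pool.Agent.MP_a0a9ec_co
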