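import Pool.Agent.Lib.MP_a0a9ec_co.Nbr

/-! The linear part: a strictly positive equilibrium stress on the 32 contact rows per cell, and
the fact that the equality system has no nonzero solution of finite support. -/

namespace Pool.Agent.MP_a0a9ec_co

open Real

/-- A contact row: body `kA` of a cell and body `kB` of the cell shifted by `(p, q)`, direction
`t` of the common tangent line, `sA = 2 t·(P - cA)`, `sB = 2 t·(P - cB)`, stress `lam`, contact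
point `P`. -/
structure Row where
  kA : Fin 10
  kB : Fin 10
  p : ℤ
  q : ℤ
  t : Pt
  sA : Zp
  sB : Zp
  lam : Zp
  P : Pt

def rows0 : List Row :=
  [⟨0, 1, 0, 0, ⟨⟨0, 0⟩, ⟨1, 0⟩⟩, ⟨0, 0⟩, ⟨0, 0⟩, ⟨57, 6⟩, ⟨⟨0, 0⟩, ⟨0, 0⟩⟩⟩,
   ⟨0, 1, 0, 0, ⟨⟨0, 0⟩, ⟨1, 0⟩⟩, ⟨20, 0⟩, ⟨20, 0⟩, ⟨43, 14⟩, ⟨⟨0, 0⟩, ⟨10, 0⟩⟩⟩,
   ⟨1, 2, 0, 0, ⟨⟨-1, 0⟩, ⟨0, 1⟩⟩, ⟨0, 0⟩, ⟨0, 0⟩, ⟨-170, 120⟩, ⟨⟨0, 0⟩, ⟨0, 0⟩⟩⟩,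
   ⟨1, 2, 0, 0, ⟨⟨-1, 0⟩, ⟨0, 1⟩⟩, ⟨20, 0⟩, ⟨20, 0⟩, ⟨210, 0⟩, ⟨⟨-10, 0⟩, ⟨0, 10⟩⟩⟩,
   ⟨2, 3, 0, 0, ⟨⟨0, -1⟩, ⟨0, 1⟩⟩, ⟨0, 0⟩, ⟨0, 0⟩, ⟨57, 6⟩, ⟨⟨0, 0⟩, ⟨0, 0⟩⟩⟩,
   ⟨2, 3, 0, 0, ⟨⟨0, -1⟩, ⟨0, 1⟩⟩, ⟨20, 0⟩, ⟨20, 0⟩, ⟨43, 14⟩, ⟨⟨0, -10⟩, ⟨0, 10⟩⟩⟩,
   ⟨3, 4, 0, 0, ⟨⟨0, -1⟩, ⟨1, 0⟩⟩, ⟨0, 0⟩, ⟨0, 0⟩, ⟨132, -9⟩, ⟨⟨0, 0⟩, ⟨0, 0⟩⟩⟩,
   ⟨3, 4, 0, 0, ⟨⟨0, -1⟩, ⟨1, 0⟩⟩, ⟨20, 0⟩, ⟨20, 0⟩, ⟨8, 9⟩, ⟨⟨0, -10⟩, ⟨10, 0⟩⟩⟩,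
   ⟨4, 5, 0, 0, ⟨⟨-1, 0⟩, ⟨0, 0⟩⟩, ⟨0, 0⟩, ⟨0, 0⟩, ⟨132, -9⟩, ⟨⟨0, 0⟩, ⟨0, 0⟩⟩⟩,
   ⟨4, 5, 0, 0, ⟨⟨-1, 0⟩, ⟨0, 0⟩⟩, ⟨20, 0⟩, ⟨20, 0⟩, ⟨8, 9⟩, ⟨⟨-10, 0⟩, ⟨0, 0⟩⟩⟩,
   ⟨5, 6, 0, 0, ⟨⟨0, 0⟩, ⟨-1, 0⟩⟩, ⟨0, 0⟩, ⟨0, 0⟩, ⟨57, 6⟩, ⟨⟨0, 0⟩, ⟨0, 0⟩⟩⟩,
   ⟨5, 6, 0, 0, ⟨⟨0, 0⟩, ⟨-1, 0⟩⟩, ⟨20, 0⟩, ⟨20, 0⟩, ⟨43, 14⟩, ⟨⟨0, 0⟩, ⟨-10, 0⟩⟩⟩,
   ⟨6, 7, 0, 0, ⟨⟨1, 0⟩, ⟨0, -1⟩⟩, ⟨0, 0⟩, ⟨0, 0⟩, ⟨-170, 120⟩, ⟨⟨0, 0⟩, ⟨0, 0⟩⟩⟩,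
   ⟨6, 7, 0, 0, ⟨⟨1, 0⟩, ⟨0, -1⟩⟩, ⟨20, 0⟩, ⟨20, 0⟩, ⟨210, 0⟩, ⟨⟨10, 0⟩, ⟨0, -10⟩⟩⟩,
   ⟨7, 8, 0, 0, ⟨⟨0, 1⟩, ⟨0, -1⟩⟩, ⟨0, 0⟩, ⟨0, 0⟩, ⟨57, 6⟩, ⟨⟨0, 0⟩, ⟨0, 0⟩⟩⟩,
   ⟨7, 8, 0, 0, ⟨⟨0, 1⟩, ⟨0, -1⟩⟩, ⟨20, 0⟩, ⟨20, 0⟩, ⟨43, 14⟩, ⟨⟨0, 10⟩, ⟨0, -10⟩⟩⟩,
   ⟨8, 9, 0, 0, ⟨⟨0, 1⟩, ⟨-1, 0⟩⟩, ⟨0, 0⟩, ⟨0, 0⟩, ⟨132, -9⟩, ⟨⟨0, 0⟩, ⟨0, 0⟩⟩⟩,
   ⟨8, 9, 0, 0, ⟨⟨0, 1⟩, ⟨-1, 0⟩⟩, ⟨20, 0⟩, ⟨20, 0⟩, ⟨8, 9⟩, ⟨⟨0, 10⟩, ⟨-10, 0⟩⟩⟩,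
   ⟨9, 0, 0, 0, ⟨⟨1, 0⟩, ⟨0, 0⟩⟩, ⟨0, 0⟩, ⟨0, 0⟩, ⟨132, -9⟩, ⟨⟨0, 0⟩, ⟨0, 0⟩⟩⟩,
   ⟨9, 0, 0, 0, ⟨⟨1, 0⟩, ⟨0, 0⟩⟩, ⟨20, 0⟩, ⟨20, 0⟩, ⟨8, 9⟩, ⟨⟨10, 0⟩, ⟨0, 0⟩⟩⟩]

def rowsU : List Row :=
  [⟨0, 5, 1, 0, ⟨⟨2, 0⟩, ⟨3, -2⟩⟩, ⟨100, -25⟩, ⟨40, -65⟩, ⟨4, 12⟩, ⟨⟨5, 0⟩, ⟨15, 0⟩⟩⟩,
   ⟨0, 5, 1, 0, ⟨⟨2, 0⟩, ⟨3, -2⟩⟩, ⟨-40, 65⟩, ⟨-100, 25⟩, ⟨4, 12⟩, ⟨⟨-3, 6⟩, ⟨-3, 11⟩⟩⟩,
   ⟨0, 6, 1, 0, ⟨⟨1, 0⟩, ⟨-1, -1⟩⟩, ⟨-25, -35⟩, ⟨20, 20⟩, ⟨124, -48⟩, ⟨⟨1, 8⟩, ⟨1, 8⟩⟩⟩,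
   ⟨1, 5, 1, 0, ⟨⟨1, 0⟩, ⟨-1, -1⟩⟩, ⟨-20, -20⟩, ⟨25, 35⟩, ⟨124, -48⟩, ⟨⟨1, -2⟩, ⟨11, 3⟩⟩⟩,
   ⟨1, 4, 1, 0, ⟨⟨3, 0⟩, ⟨-2, 0⟩⟩, ⟨25, -20⟩, ⟨40, -65⟩, ⟨-28, 56⟩, ⟨⟨-1, -8⟩, ⟨9, 17⟩⟩⟩,
   ⟨9, 6, 1, 0, ⟨⟨3, 0⟩, ⟨-2, 0⟩⟩, ⟨-40, 65⟩, ⟨-25, 20⟩, ⟨-28, 56⟩, ⟨⟨3, 14⟩, ⟨3, -6⟩⟩⟩]

def rowsV : List Row :=
  [⟨3, 8, 0, 1, ⟨⟨-2, 3⟩, ⟨0, -1⟩⟩, ⟨-100, 25⟩, ⟨-40, 65⟩, ⟨4, 12⟩, ⟨⟨0, -20⟩, ⟨5, 15⟩⟩⟩,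
   ⟨3, 8, 0, 1, ⟨⟨-2, 3⟩, ⟨0, -1⟩⟩, ⟨40, -65⟩, ⟨100, -25⟩, ⟨4, 12⟩, ⟨⟨-17, -11⟩, ⟨8, 14⟩⟩⟩,
   ⟨3, 7, 0, 1, ⟨⟨-1, -1⟩, ⟨0, 2⟩⟩, ⟨25, 35⟩, ⟨-20, -20⟩, ⟨124, -48⟩, ⟨⟨-16, -18⟩, ⟨9, 17⟩⟩⟩,
   ⟨2, 8, 0, 1, ⟨⟨-1, -1⟩, ⟨0, 2⟩⟩, ⟨20, 20⟩, ⟨-25, -35⟩, ⟨124, -48⟩, ⟨⟨-1, -13⟩, ⟨4, 12⟩⟩⟩,
   ⟨2, 9, 0, 1, ⟨⟨0, 1⟩, ⟨-3, 2⟩⟩, ⟨-25, 20⟩, ⟨-40, 65⟩, ⟨-28, 56⟩, ⟨⟨-9, -17⟩, ⟨16, 18⟩⟩⟩,
   ⟨4, 7, 0, 1, ⟨⟨0, 1⟩, ⟨-3, 2⟩⟩, ⟨40, -65⟩, ⟨25, -20⟩, ⟨-28, 56⟩, ⟨⟨-8, -14⟩, ⟨-3, 11⟩⟩⟩]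


noncomputable def rv (t : Pt) (s : Zp) (w x z : ℝ) : ℝ :=
  w * s.ev + 2 * (t.x.ev * z - t.y.ev * x)

noncomputable def Lr (r : Row) (w x z : ℤ → ℤ → Fin 10 → ℝ) (m n : ℤ) : ℝ :=
  rv r.t r.sB (w (m + r.p) (n + r.q) r.kB) (x (m + r.p) (n + r.q) r.kB)
    (z (m + r.p) (n + r.q) r.kB) -
  rv r.t r.sA (w m n r.kA) (x m n r.kA) (z m n r.kA)

def rows : List Row := rows0 ++ rowsU ++ rowsV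

theorem lam_pos : rows.all (fun r => r.lam.pos) = true := by decide +kernel

theorem equil (w x z : Fin 10 → ℝ) :
    (rows.map (fun r => r.lam.ev * (rv r.t r.sB (w r.kB) (x r.kB) (z r.kB) -
      rv r.t r.sA (w r.kA) (x r.kA) (z r.kA)))).sum = 0 := by
  simp only [rows, rows0, rowsU, rowsV, List.cons_append, List.nil_append, List.map_cons,
    List.map_nil, List.sum_cons, List.sum_nil, rv, Zp.ev]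
  push_cast
  linear_combination ((-2160) * w 0 + (160) * w 1 + (-160) * w 2 + (2160) * w 3 + (-2160) * w 5 + (160) * w 6 + (-160) * w 7 + (2160) * w 8 + (336) * x 1 + (-168) * x 2 + (-280) * x 3 + (224) * x 4 + (-336) * x 6 + (168) * x 7 + (280) * x 8 + (-224) * x 9 + (-168) * z 2 + (-280) * z 3 + (-112) * z 4 + (168) * z 7 + (280) * z 8 + (112) * z 9) * goldenRatio_sq

/-- a finitely supported discrete divergence which is nonnegative vanishes -/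
theorem div_zero' (a b : ℤ → ℤ → ℝ) (N : ℤ)
    (ha : ∀ m n, (N ≤ |m| ∨ N ≤ |n|) → a m n = 0) (hb : ∀ m n, (N ≤ |m| ∨ N ≤ |n|) → b m n = 0)
    (hG : ∀ m n, 0 ≤ (a (m + 1) n - a m n) + (b m (n + 1) - b m n)) :
    ∀ m n, (a (m + 1) n - a m n) + (b m (n + 1) - b m n) = 0 := by
  intro m n
  obtain ⟨M, hM⟩ : ∃ M : ℕ, N < M ∧ |m| < M ∧ |n| < M :=
    ⟨(|N| + |m| + |n| + 1).toNat, by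
      have h1 := abs_nonneg N
      have h2 := abs_nonneg m
      have h3 := abs_nonneg n
      have h4 := le_abs_self N
      omega⟩
  set g : ℤ → ℤ → ℝ := fun m n => (a (m + 1) n - a m n) + (b m (n + 1) - b m n) with hg
  have tot : ∑ i ∈ Finset.range (2 * M), ∑ j ∈ Finset.range (2 * M),
      g (-M + i) (-M + j) = 0 := by
    have e1 : ∀ j : ℤ, ∑ i ∈ Finset.range (2 * M), (a (-M + i + 1) j - a (-M + i) j) = 0 := by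
      intro j
      have := Finset.sum_range_sub (fun i : ℕ => a (-M + i) j) (2 * M)
      have e : ∀ i : ℕ, (-(M : ℤ) + ((i + 1 : ℕ) : ℤ)) = -M + i + 1 := by intro i; push_cast; ring
      simp only [e] at this
      rw [this, ha _ j (Or.inl ?_), ha _ j (Or.inl ?_), sub_zero]
      · push_cast; rw [add_zero, abs_neg, abs_of_nonneg (by omega)]; omega
      · push_cast; rw [show -(M : ℤ) + 2 * M = M by ring, abs_of_nonneg (by omega)]; omega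
    have e2 : ∀ i : ℤ, ∑ j ∈ Finset.range (2 * M), (b i (-M + j + 1) - b i (-M + j)) = 0 := by
      intro i
      have := Finset.sum_range_sub (fun j : ℕ => b i (-M + j)) (2 * M)
      have e : ∀ i : ℕ, (-(M : ℤ) + ((i + 1 : ℕ) : ℤ)) = -M + i + 1 := by intro i; push_cast; ring
      simp only [e] at this
      rw [this, hb i _ (Or.inr ?_), hb i _ (Or.inr ?_), sub_zero]
      · push_cast; rw [add_zero, abs_neg, abs_of_nonneg (by omega)]; omega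
      · push_cast; rw [show -(M : ℤ) + 2 * M = M by ring, abs_of_nonneg (by omega)]; omega
    simp only [hg, Finset.sum_add_distrib]
    rw [Finset.sum_comm]
    simp only [e1, e2, Finset.sum_const_zero, add_zero]
  have h1 : ∀ i ∈ Finset.range (2 * M), ∑ j ∈ Finset.range (2 * M), g (-M + i) (-M + j) = 0 := by
    rw [← Finset.sum_eq_zero_iff_of_nonneg]
    · exact tot
    · intro i _; exact Finset.sum_nonneg (fun j _ => hG _ _)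
  have hm := abs_lt.1 hM.2.1
  have hn := abs_lt.1 hM.2.2
  have h2 := h1 (m + M).toNat (Finset.mem_range.2 (by omega))
  rw [Finset.sum_eq_zero_iff_of_nonneg (fun j _ => hG _ _)] at h2
  have h3 := h2 (n + M).toNat (Finset.mem_range.2 (by omega))
  have e3 : -(M : ℤ) + ((m + M).toNat : ℤ) = m := by omega
  have e4 : -(M : ℤ) + ((n + M).toNat : ℤ) = n := by omega
  rw [e3, e4] at h3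
  exact h3

theorem rv_zero (t : Pt) (s : Zp) : rv t s 0 0 0 = 0 := by simp [rv]

/-- all contact rows of a finitely supported admissible motion vanish -/
theorem rows_zero (w x z : ℤ → ℤ → Fin 10 → ℝ) (N : ℤ)
    (hw : ∀ m n k, (N ≤ |m| ∨ N ≤ |n|) → w m n k = 0)
    (hx : ∀ m n k, (N ≤ |m| ∨ N ≤ |n|) → x m n k = 0)
    (hz : ∀ m n k, (N ≤ |m| ∨ N ≤ |n|) → z m n k = 0)
    (h : ∀ r ∈ rows, ∀ m n, 0 ≤ Lr r w x z m n) :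
    ∀ r ∈ rows, ∀ m n, Lr r w x z m n = 0 := by
  set a : ℤ → ℤ → ℝ := fun m n =>
    (rowsU.map (fun r => r.lam.ev * rv r.t r.sB (w m n r.kB) (x m n r.kB) (z m n r.kB))).sum with ha
  set b : ℤ → ℤ → ℝ := fun m n =>
    (rowsV.map (fun r => r.lam.ev * rv r.t r.sB (w m n r.kB) (x m n r.kB) (z m n r.kB))).sum with hb
  have key : ∀ m n, (rows.map (fun r => r.lam.ev * Lr r w x z m n)).sum =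
      (a (m + 1) n - a m n) + (b m (n + 1) - b m n) := by
    intro m n
    have e := equil (w m n) (x m n) (z m n)
    rw [← sub_zero ((rows.map (fun r => r.lam.ev * Lr r w x z m n)).sum), ← e]
    simp only [ha, hb, rows, rows0, rowsU, rowsV, List.cons_append, List.nil_append, List.map_cons,
      List.map_nil, List.sum_cons, List.sum_nil, Lr, add_zero]
    ring
  have supp : ∀ (L : List Row) (m n : ℤ), (N ≤ |m| ∨ N ≤ |n|) →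
      (L.map (fun r => r.lam.ev * rv r.t r.sB (w m n r.kB) (x m n r.kB) (z m n r.kB))).sum = 0 := by
    intro L m n hmn
    induction L with
    | nil => simp
    | cons r L ih =>
      rw [List.map_cons, List.sum_cons, ih, hw _ _ _ hmn, hx _ _ _ hmn, hz _ _ _ hmn, rv_zero]
      simp
  have lp : ∀ r ∈ rows, 0 < r.lam.ev := by
    have := lam_pos
    simp only [List.all_eq_true] at this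
    exact fun r hr => Zp.pos_sound (this r hr)
  have hnn : ∀ m n, 0 ≤ (a (m + 1) n - a m n) + (b m (n + 1) - b m n) := by
    intro m n
    rw [← key]
    apply List.sum_nonneg
    intro y hy
    rw [List.mem_map] at hy
    obtain ⟨r, hr, rfl⟩ := hy
    exact mul_nonneg (lp r hr).le (h r hr m n)
  have hz0 := div_zero' a b N (fun m n hmn => supp _ m n hmn) (fun m n hmn => supp _ m n hmn) hnn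
  intro r hr m n
  have h1 := hz0 m n
  rw [← key] at h1
  have h2 : r.lam.ev * Lr r w x z m n ≤ (rows.map (fun r => r.lam.ev * Lr r w x z m n)).sum := by
    apply List.single_le_sum
    · intro y hy
      rw [List.mem_map] at hy
      obtain ⟨r, hr, rfl⟩ := hy
      exact mul_nonneg (lp r hr).le (h r hr m n)
    · exact List.mem_map.2 ⟨r, hr, rfl⟩
  rw [h1] at h2
  have h3 := h r hr m n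
  have h4 := lp r hr
  nlinarith

theorem phi_bounds : (1.6 : ℝ) < goldenRatio ∧ goldenRatio < 1.62 := by
  have h := goldenRatio_sq
  have hp := phi_pos
  constructor
  · nlinarith
  · nlinarith

theorem cancel {c y : ℝ} (hc : c ≠ 0) (h : c * y = 0) : y = 0 := by
  rcases mul_eq_zero.1 h with h | h
  · exact absurd h hc
  · exact h

theorem leg_gen {w x z : ℤ → ℤ → Fin 10 → ℝ} (H : ∀ r ∈ rows, ∀ m n, Lr r w x z m n = 0)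
    {kA kB : Fin 10} {t : Pt} {l1 l2 : Zp} {P1 P2 : Pt}
    (h1 : (⟨kA, kB, 0, 0, t, ⟨0, 0⟩, ⟨0, 0⟩, l1, P1⟩ : Row) ∈ rows)
    (h2 : (⟨kA, kB, 0, 0, t, ⟨20, 0⟩, ⟨20, 0⟩, l2, P2⟩ : Row) ∈ rows) (m n : ℤ) :
    w m n kB = w m n kA ∧
      t.x.ev * (z m n kB - z m n kA) - t.y.ev * (x m n kB - x m n kA) = 0 := by
  have a1 := H _ h1 m n
  have a2 := H _ h2 m n
  simp only [Lr, rv, add_zero] at a1 a2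
  have e0 : Zp.ev ⟨0, 0⟩ = 0 := by simp [Zp.ev]
  have e1 : Zp.ev ⟨20, 0⟩ = 20 := by simp [Zp.ev]
  rw [e0] at a1
  rw [e1] at a2
  constructor
  · linarith
  · linarith

theorem out_gen {w x z : ℤ → ℤ → Fin 10 → ℝ} (H : ∀ r ∈ rows, ∀ m n, Lr r w x z m n = 0)
    {kA kB : Fin 10} {p q : ℤ} {t : Pt} {sA sB l1 : Zp} {P1 : Pt}
    (h1 : (⟨kA, kB, p, q, t, sA, sB, l1, P1⟩ : Row) ∈ rows) (m n : ℤ)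
    (wA : w m n kA = 0) (wB : w (m + p) (n + q) kB = 0) :
    t.x.ev * (z (m + p) (n + q) kB - z m n kA) - t.y.ev * (x (m + p) (n + q) kB - x m n kA) = 0 := by
  have a1 := H _ h1 m n
  simp only [Lr, rv, wA, wB] at a1
  linarith

theorem mleg0 : (⟨0, 1, 0, 0, ⟨⟨0, 0⟩, ⟨1, 0⟩⟩, ⟨0, 0⟩, ⟨0, 0⟩, ⟨57, 6⟩, ⟨⟨0, 0⟩, ⟨0, 0⟩⟩⟩ : Row) ∈ rows ∧
    (⟨0, 1, 0, 0, ⟨⟨0, 0⟩, ⟨1, 0⟩⟩, ⟨20, 0⟩, ⟨20, 0⟩, ⟨43, 14⟩, ⟨⟨0, 0⟩, ⟨10, 0⟩⟩⟩ : Row) ∈ rows := by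
  constructor <;> simp [rows, rows0]
theorem mleg1 : (⟨1, 2, 0, 0, ⟨⟨-1, 0⟩, ⟨0, 1⟩⟩, ⟨0, 0⟩, ⟨0, 0⟩, ⟨-170, 120⟩, ⟨⟨0, 0⟩, ⟨0, 0⟩⟩⟩ : Row) ∈ rows ∧
    (⟨1, 2, 0, 0, ⟨⟨-1, 0⟩, ⟨0, 1⟩⟩, ⟨20, 0⟩, ⟨20, 0⟩, ⟨210, 0⟩, ⟨⟨-10, 0⟩, ⟨0, 10⟩⟩⟩ : Row) ∈ rows := by
  constructor <;> simp [rows, rows0]
theorem mleg2 : (⟨2, 3, 0, 0, ⟨⟨0, -1⟩, ⟨0, 1⟩⟩, ⟨0, 0⟩, ⟨0, 0⟩, ⟨57, 6⟩, ⟨⟨0, 0⟩, ⟨0, 0⟩⟩⟩ : Row) ∈ rows ∧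
    (⟨2, 3, 0, 0, ⟨⟨0, -1⟩, ⟨0, 1⟩⟩, ⟨20, 0⟩, ⟨20, 0⟩, ⟨43, 14⟩, ⟨⟨0, -10⟩, ⟨0, 10⟩⟩⟩ : Row) ∈ rows := by
  constructor <;> simp [rows, rows0]
theorem mleg3 : (⟨3, 4, 0, 0, ⟨⟨0, -1⟩, ⟨1, 0⟩⟩, ⟨0, 0⟩, ⟨0, 0⟩, ⟨132, -9⟩, ⟨⟨0, 0⟩, ⟨0, 0⟩⟩⟩ : Row) ∈ rows ∧
    (⟨3, 4, 0, 0, ⟨⟨0, -1⟩, ⟨1, 0⟩⟩, ⟨20, 0⟩, ⟨20, 0⟩, ⟨8, 9⟩, ⟨⟨0, -10⟩, ⟨10, 0⟩⟩⟩ : Row) ∈ rows := by
  constructor <;> simp [rows, rows0]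
theorem mleg4 : (⟨4, 5, 0, 0, ⟨⟨-1, 0⟩, ⟨0, 0⟩⟩, ⟨0, 0⟩, ⟨0, 0⟩, ⟨132, -9⟩, ⟨⟨0, 0⟩, ⟨0, 0⟩⟩⟩ : Row) ∈ rows ∧
    (⟨4, 5, 0, 0, ⟨⟨-1, 0⟩, ⟨0, 0⟩⟩, ⟨20, 0⟩, ⟨20, 0⟩, ⟨8, 9⟩, ⟨⟨-10, 0⟩, ⟨0, 0⟩⟩⟩ : Row) ∈ rows := by
  constructor <;> simp [rows, rows0]
theorem mleg5 : (⟨5, 6, 0, 0, ⟨⟨0, 0⟩, ⟨-1, 0⟩⟩, ⟨0, 0⟩, ⟨0, 0⟩, ⟨57, 6⟩, ⟨⟨0, 0⟩, ⟨0, 0⟩⟩⟩ : Row) ∈ rows ∧
    (⟨5, 6, 0, 0, ⟨⟨0, 0⟩, ⟨-1, 0⟩⟩, ⟨20, 0⟩, ⟨20, 0⟩, ⟨43, 14⟩, ⟨⟨0, 0⟩, ⟨-10, 0⟩⟩⟩ : Row) ∈ rows := by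
  constructor <;> simp [rows, rows0]
theorem mleg6 : (⟨6, 7, 0, 0, ⟨⟨1, 0⟩, ⟨0, -1⟩⟩, ⟨0, 0⟩, ⟨0, 0⟩, ⟨-170, 120⟩, ⟨⟨0, 0⟩, ⟨0, 0⟩⟩⟩ : Row) ∈ rows ∧
    (⟨6, 7, 0, 0, ⟨⟨1, 0⟩, ⟨0, -1⟩⟩, ⟨20, 0⟩, ⟨20, 0⟩, ⟨210, 0⟩, ⟨⟨10, 0⟩, ⟨0, -10⟩⟩⟩ : Row) ∈ rows := by
  constructor <;> simp [rows, rows0]
theorem mleg7 : (⟨7, 8, 0, 0, ⟨⟨0, 1⟩, ⟨0, -1⟩⟩, ⟨0, 0⟩, ⟨0, 0⟩, ⟨57, 6⟩, ⟨⟨0, 0⟩, ⟨0, 0⟩⟩⟩ : Row) ∈ rows ∧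
    (⟨7, 8, 0, 0, ⟨⟨0, 1⟩, ⟨0, -1⟩⟩, ⟨20, 0⟩, ⟨20, 0⟩, ⟨43, 14⟩, ⟨⟨0, 10⟩, ⟨0, -10⟩⟩⟩ : Row) ∈ rows := by
  constructor <;> simp [rows, rows0]
theorem mleg8 : (⟨8, 9, 0, 0, ⟨⟨0, 1⟩, ⟨-1, 0⟩⟩, ⟨0, 0⟩, ⟨0, 0⟩, ⟨132, -9⟩, ⟨⟨0, 0⟩, ⟨0, 0⟩⟩⟩ : Row) ∈ rows ∧
    (⟨8, 9, 0, 0, ⟨⟨0, 1⟩, ⟨-1, 0⟩⟩, ⟨20, 0⟩, ⟨20, 0⟩, ⟨8, 9⟩, ⟨⟨0, 10⟩, ⟨-10, 0⟩⟩⟩ : Row) ∈ rows := by
  constructor <;> simp [rows, rows0]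
theorem mleg9 : (⟨9, 0, 0, 0, ⟨⟨1, 0⟩, ⟨0, 0⟩⟩, ⟨0, 0⟩, ⟨0, 0⟩, ⟨132, -9⟩, ⟨⟨0, 0⟩, ⟨0, 0⟩⟩⟩ : Row) ∈ rows ∧
    (⟨9, 0, 0, 0, ⟨⟨1, 0⟩, ⟨0, 0⟩⟩, ⟨20, 0⟩, ⟨20, 0⟩, ⟨8, 9⟩, ⟨⟨10, 0⟩, ⟨0, 0⟩⟩⟩ : Row) ∈ rows := by
  constructor <;> simp [rows, rows0]
theorem mout05 : (⟨0, 5, 1, 0, ⟨⟨2, 0⟩, ⟨3, -2⟩⟩, ⟨100, -25⟩, ⟨40, -65⟩, ⟨4, 12⟩, ⟨⟨5, 0⟩, ⟨15, 0⟩⟩⟩ : Row) ∈ rows := by
  simp [rows, rowsU, rowsV]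
theorem mout05b : (⟨0, 5, 1, 0, ⟨⟨2, 0⟩, ⟨3, -2⟩⟩, ⟨-40, 65⟩, ⟨-100, 25⟩, ⟨4, 12⟩, ⟨⟨-3, 6⟩, ⟨-3, 11⟩⟩⟩ : Row) ∈ rows := by
  simp [rows, rowsU, rowsV]
theorem mout06 : (⟨0, 6, 1, 0, ⟨⟨1, 0⟩, ⟨-1, -1⟩⟩, ⟨-25, -35⟩, ⟨20, 20⟩, ⟨124, -48⟩, ⟨⟨1, 8⟩, ⟨1, 8⟩⟩⟩ : Row) ∈ rows := by
  simp [rows, rowsU, rowsV]
theorem mout15 : (⟨1, 5, 1, 0, ⟨⟨1, 0⟩, ⟨-1, -1⟩⟩, ⟨-20, -20⟩, ⟨25, 35⟩, ⟨124, -48⟩, ⟨⟨1, -2⟩, ⟨11, 3⟩⟩⟩ : Row) ∈ rows := by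
  simp [rows, rowsU, rowsV]
theorem mout14 : (⟨1, 4, 1, 0, ⟨⟨3, 0⟩, ⟨-2, 0⟩⟩, ⟨25, -20⟩, ⟨40, -65⟩, ⟨-28, 56⟩, ⟨⟨-1, -8⟩, ⟨9, 17⟩⟩⟩ : Row) ∈ rows := by
  simp [rows, rowsU, rowsV]
theorem mout96 : (⟨9, 6, 1, 0, ⟨⟨3, 0⟩, ⟨-2, 0⟩⟩, ⟨-40, 65⟩, ⟨-25, 20⟩, ⟨-28, 56⟩, ⟨⟨3, 14⟩, ⟨3, -6⟩⟩⟩ : Row) ∈ rows := by
  simp [rows, rowsU, rowsV]
theorem mout38 : (⟨3, 8, 0, 1, ⟨⟨-2, 3⟩, ⟨0, -1⟩⟩, ⟨-100, 25⟩, ⟨-40, 65⟩, ⟨4, 12⟩, ⟨⟨0, -20⟩, ⟨5, 15⟩⟩⟩ : Row) ∈ rows := by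
  simp [rows, rowsU, rowsV]
theorem mout38b : (⟨3, 8, 0, 1, ⟨⟨-2, 3⟩, ⟨0, -1⟩⟩, ⟨40, -65⟩, ⟨100, -25⟩, ⟨4, 12⟩, ⟨⟨-17, -11⟩, ⟨8, 14⟩⟩⟩ : Row) ∈ rows := by
  simp [rows, rowsU, rowsV]
theorem mout37 : (⟨3, 7, 0, 1, ⟨⟨-1, -1⟩, ⟨0, 2⟩⟩, ⟨25, 35⟩, ⟨-20, -20⟩, ⟨124, -48⟩, ⟨⟨-16, -18⟩, ⟨9, 17⟩⟩⟩ : Row) ∈ rows := by
  simp [rows, rowsU, rowsV]
theorem mout28 : (⟨2, 8, 0, 1, ⟨⟨-1, -1⟩, ⟨0, 2⟩⟩, ⟨20, 20⟩, ⟨-25, -35⟩, ⟨124, -48⟩, ⟨⟨-1, -13⟩, ⟨4, 12⟩⟩⟩ : Row) ∈ rows := by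
  simp [rows, rowsU, rowsV]
theorem mout29 : (⟨2, 9, 0, 1, ⟨⟨0, 1⟩, ⟨-3, 2⟩⟩, ⟨-25, 20⟩, ⟨-40, 65⟩, ⟨-28, 56⟩, ⟨⟨-9, -17⟩, ⟨16, 18⟩⟩⟩ : Row) ∈ rows := by
  simp [rows, rowsU, rowsV]
theorem mout47 : (⟨4, 7, 0, 1, ⟨⟨0, 1⟩, ⟨-3, 2⟩⟩, ⟨40, -65⟩, ⟨25, -20⟩, ⟨-28, 56⟩, ⟨⟨-8, -14⟩, ⟨-3, 11⟩⟩⟩ : Row) ∈ rows := by
  simp [rows, rowsU, rowsV]

/-- one column step of the elimination -/
theorem column_step (w x z : ℤ → ℤ → Fin 10 → ℝ)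
    (H : ∀ r ∈ rows, ∀ m n, Lr r w x z m n = 0) (m : ℤ)
    (h0 : ∀ n k, w (m + 1) n k = 0 ∧ x (m + 1) n k = 0 ∧ z (m + 1) n k = 0) :
    ∀ n k, w m n k = 0 ∧ x m n k = 0 ∧ z m n k = 0 := by
  obtain ⟨b1, b2⟩ := phi_bounds
  have hs := goldenRatio_sq
  have G0 := fun m n => leg_gen H mleg0.1 mleg0.2 m n
  have G1 := fun m n => leg_gen H mleg1.1 mleg1.2 m n
  have G2 := fun m n => leg_gen H mleg2.1 mleg2.2 m n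
  have G3 := fun m n => leg_gen H mleg3.1 mleg3.2 m n
  have G4 := fun m n => leg_gen H mleg4.1 mleg4.2 m n
  have G5 := fun m n => leg_gen H mleg5.1 mleg5.2 m n
  have G6 := fun m n => leg_gen H mleg6.1 mleg6.2 m n
  have G7 := fun m n => leg_gen H mleg7.1 mleg7.2 m n
  have G8 := fun m n => leg_gen H mleg8.1 mleg8.2 m n
  have G9 := fun m n => leg_gen H mleg9.1 mleg9.2 m n
  simp only [Zp.ev, Int.cast_neg, Int.cast_zero, Int.cast_one] at G0 G1 G2 G3 G4 G5 G6 G7 G8 G9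
  -- rotations
  have Wk : ∀ m n, w m n 0 = 0 → ∀ k, w m n k = 0 := by
    intro m n h k
    have q1 : w m n 1 = 0 := by rw [(G0 m n).1, h]
    have q2 : w m n 2 = 0 := by rw [(G1 m n).1, q1]
    have q3 : w m n 3 = 0 := by rw [(G2 m n).1, q2]
    have q4 : w m n 4 = 0 := by rw [(G3 m n).1, q3]
    have q5 : w m n 5 = 0 := by rw [(G4 m n).1, q4]
    have q6 : w m n 6 = 0 := by rw [(G5 m n).1, q5]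
    have q7 : w m n 7 = 0 := by rw [(G6 m n).1, q6]
    have q8 : w m n 8 = 0 := by rw [(G7 m n).1, q7]
    have q9 : w m n 9 = 0 := by rw [(G8 m n).1, q8]
    fin_cases k
    · exact h
    · exact q1
    · exact q2
    · exact q3
    · exact q4
    · exact q5
    · exact q6
    · exact q7
    · exact q8
    · exact q9
  have Wf : ∀ m n, w (m + 1) n 5 = w m n 0 := by
    intro m n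
    have a1 := H _ mout05 m n
    have a2 := H _ mout05b m n
    simp only [Lr, rv, Zp.ev, add_zero] at a1 a2
    push_cast at a1 a2
    have : (140 - 90 * goldenRatio) * (w (m + 1) n 5 - w m n 0) = 0 := by linarith
    have := cancel (by nlinarith) this
    linarith
  have W0 : ∀ n k, w m n k = 0 := by
    intro n
    apply Wk
    rw [← Wf m n]
    exact (h0 n 5).1
  have Wm : ∀ n k, w (m - 1) n k = 0 := by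
    intro n
    apply Wk
    rw [← Wf (m - 1) n, sub_add_cancel]
    exact W0 n 5
  have X1 := fun n k => (h0 n k).2.1
  have Z1 := fun n k => (h0 n k).2.2
  have W1 := fun n k => (h0 n k).1
  have B0 : ∀ n, x m n 0 = 0 ∧ z m n 0 = 0 := by
    intro n
    have a1 := out_gen H mout05 m n (W0 n 0) (by rw [add_zero]; exact W1 n 5)
    have a2 := out_gen H mout06 m n (W0 n 0) (by rw [add_zero]; exact W1 n 6)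
    simp only [Zp.ev, add_zero, X1, Z1] at a1 a2
    push_cast at a1 a2
    have : 5 * x m n 0 = 0 := by linarith
    have hx : x m n 0 = 0 := by linarith
    rw [hx] at a1
    exact ⟨hx, by linarith⟩
  have B1 : ∀ n, x m n 1 = 0 ∧ z m n 1 = 0 := by
    intro n
    have a1 := out_gen H mout15 m n (W0 n 1) (by rw [add_zero]; exact W1 n 5)
    have a2 := out_gen H mout14 m n (W0 n 1) (by rw [add_zero]; exact W1 n 4)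
    simp only [Zp.ev, add_zero, X1, Z1] at a1 a2
    push_cast at a1 a2
    have : (1 + 3 * goldenRatio) * x m n 1 = 0 := by linarith
    have hx : x m n 1 = 0 := cancel (by nlinarith) this
    rw [hx] at a1
    exact ⟨hx, by linarith⟩
  have B9 : ∀ n, x m n 9 = 0 ∧ z m n 9 = 0 := by
    intro n
    have a1 := out_gen H mout96 m n (W0 n 9) (by rw [add_zero]; exact W1 n 6)
    have a2 := (G9 m n).2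
    simp only [Zp.ev, add_zero, X1, Z1] at a1
    push_cast at a1
    rw [(B0 n).1, (B0 n).2] at a2
    have hz : z m n 9 = 0 := by linarith
    rw [hz] at a1
    exact ⟨by linarith, hz⟩
  have B2 : ∀ n, x m n 2 = 0 ∧ z m n 2 = 0 := by
    intro n
    have a1 := out_gen H mout29 m n (W0 n 2) (by rw [add_zero]; exact W0 (n + 1) 9)
    have a2 := (G1 m n).2
    simp only [Zp.ev, add_zero, (B9 (n + 1)).1, (B9 (n + 1)).2] at a1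
    push_cast at a1
    rw [(B1 n).1, (B1 n).2] at a2
    have : (2 - 3 * goldenRatio) * x m n 2 = 0 := by
      linear_combination goldenRatio * a2 - a1 + (x m n 2) * hs
    have hx : x m n 2 = 0 := cancel (by nlinarith) this
    rw [hx] at a2
    exact ⟨hx, by linarith⟩
  have B8 : ∀ n, x m n 8 = 0 ∧ z m n 8 = 0 := by
    intro n
    have a1 := out_gen H mout28 m (n - 1) (W0 (n - 1) 2)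
      (by rw [add_zero, sub_add_cancel]; exact W0 n 8)
    have a2 := (G8 m n).2
    simp only [Zp.ev, add_zero, sub_add_cancel, (B2 (n - 1)).1, (B2 (n - 1)).2] at a1
    push_cast at a1
    rw [(B9 n).1, (B9 n).2] at a2
    have : (1 + goldenRatio) * z m n 8 = 0 := by
      linear_combination a1 - 2 * goldenRatio * a2 - 2 * (z m n 8) * hs
    have hz : z m n 8 = 0 := cancel (by nlinarith) this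
    rw [hz] at a2
    exact ⟨by linarith, hz⟩
  have B3 : ∀ n, x m n 3 = 0 ∧ z m n 3 = 0 := by
    intro n
    have a1 := out_gen H mout38 m n (W0 n 3) (by rw [add_zero]; exact W0 (n + 1) 8)
    have a2 := (G2 m n).2
    simp only [Zp.ev, add_zero, (B8 (n + 1)).1, (B8 (n + 1)).2] at a1
    push_cast at a1
    rw [(B2 n).1, (B2 n).2] at a2
    have : (2 - 2 * goldenRatio) * z m n 3 = 0 := by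
      linear_combination a1 - a2
    have hz : z m n 3 = 0 := cancel (by nlinarith) this
    rw [hz] at a2
    have : goldenRatio * x m n 3 = 0 := by linarith
    exact ⟨cancel (by nlinarith) this, hz⟩
  have B7 : ∀ n, x m n 7 = 0 ∧ z m n 7 = 0 := by
    intro n
    have a1 := out_gen H mout37 m (n - 1) (W0 (n - 1) 3)
      (by rw [add_zero, sub_add_cancel]; exact W0 n 7)
    have a2 := (G7 m n).2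
    simp only [Zp.ev, add_zero, sub_add_cancel, (B3 (n - 1)).1, (B3 (n - 1)).2] at a1
    push_cast at a1
    rw [(B8 n).1, (B8 n).2] at a2
    have : (goldenRatio - 1) * z m n 7 = 0 := by
      linear_combination a1 - 2 * a2
    have hz : z m n 7 = 0 := cancel (by nlinarith) this
    rw [hz] at a2
    have : goldenRatio * x m n 7 = 0 := by linarith
    exact ⟨cancel (by nlinarith) this, hz⟩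
  have B4 : ∀ n, x m n 4 = 0 ∧ z m n 4 = 0 := by
    intro n
    have a1 := out_gen H mout47 m n (W0 n 4) (by rw [add_zero]; exact W0 (n + 1) 7)
    have a2 := (G3 m n).2
    simp only [Zp.ev, add_zero, (B7 (n + 1)).1, (B7 (n + 1)).2] at a1
    push_cast at a1
    rw [(B3 n).1, (B3 n).2] at a2
    have : (-2) * z m n 4 = 0 := by
      linear_combination a1 + (-3 + 2 * goldenRatio) * a2 + 2 * (z m n 4) * hs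
    have hz : z m n 4 = 0 := by linarith
    rw [hz] at a2
    exact ⟨by linarith, hz⟩
  have Z5 : ∀ n, z m n 5 = 0 := by
    intro n
    have a2 := (G4 m n).2
    rw [(B4 n).1, (B4 n).2] at a2
    linarith
  have X6 : ∀ n, x m n 6 = x m n 5 := by
    intro n
    have a2 := (G5 m n).2
    linarith
  have Z6 : ∀ n, z m n 6 = - goldenRatio * x m n 5 := by
    intro n
    have a2 := (G6 m n).2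
    rw [(B7 n).1, (B7 n).2, X6] at a2
    linarith
  have B5 : ∀ n, x m n 5 = 0 := by
    intro n
    have a1 := out_gen H mout05 (m - 1) n (Wm n 0)
      (by rw [add_zero, sub_add_cancel]; exact W0 n 5)
    have a2 := out_gen H mout06 (m - 1) n (Wm n 0)
      (by rw [add_zero, sub_add_cancel]; exact W0 n 6)
    have a3 := out_gen H mout15 (m - 1) n (Wm n 1)
      (by rw [add_zero, sub_add_cancel]; exact W0 n 5)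
    have a4 := out_gen H mout14 (m - 1) n (Wm n 1)
      (by rw [add_zero, sub_add_cancel]; exact W0 n 4)
    have a5 := (G0 (m - 1) n).2
    simp only [Zp.ev, add_zero, sub_add_cancel, Z5, X6, Z6, (B4 n).1, (B4 n).2] at a1 a2 a3 a4
    push_cast at a1 a2 a3 a4
    have e5 : x (m - 1) n 1 = x (m - 1) n 0 := by linarith
    rw [e5] at a3 a4
    have : (-16 - 8 * goldenRatio) * x m n 5 = 0 := by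
      linear_combination 5 * (a4 - 3 * a3) - (1 + 3 * goldenRatio) * (a1 - 2 * a2) +
        6 * (x m n 5) * hs
    exact cancel (by nlinarith) this
  intro n k
  refine ⟨W0 n k, ?_⟩
  have q0 := B0 n
  have q1 := B1 n
  have q2 := B2 n
  have q3 := B3 n
  have q4 := B4 n
  have q5 : x m n 5 = 0 ∧ z m n 5 = 0 := ⟨B5 n, Z5 n⟩
  have q6 : x m n 6 = 0 ∧ z m n 6 = 0 := ⟨by rw [X6, B5], by rw [Z6, B5, mul_zero]⟩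
  have q7 := B7 n
  have q8 := B8 n
  have q9 := B9 n
  fin_cases k
  · exact q0
  · exact q1
  · exact q2
  · exact q3
  · exact q4
  · exact q5
  · exact q6
  · exact q7
  · exact q8
  · exact q9

/-- admissible finitely supported first order motions are trivial -/
theorem rigid_lin (w x z : ℤ → ℤ → Fin 10 → ℝ) (N : ℤ)
    (hw : ∀ m n k, (N ≤ |m| ∨ N ≤ |n|) → w m n k = 0)
    (hx : ∀ m n k, (N ≤ |m| ∨ N ≤ |n|) → x m n k = 0)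
    (hz : ∀ m n k, (N ≤ |m| ∨ N ≤ |n|) → z m n k = 0)
    (h : ∀ r ∈ rows, ∀ m n, 0 ≤ Lr r w x z m n) :
    ∀ m n k, w m n k = 0 ∧ x m n k = 0 ∧ z m n k = 0 := by
  have H := rows_zero w x z N hw hx hz h
  have step : ∀ j : ℕ, ∀ n k, w (|N| - j) n k = 0 ∧ x (|N| - j) n k = 0 ∧
      z (|N| - j) n k = 0 := by
    intro j
    induction j with
    | zero =>
      intro n k
      have : N ≤ |(|N| - ((0 : ℕ) : ℤ))| := by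
        push_cast; rw [sub_zero, abs_abs]; exact le_abs_self N
      exact ⟨hw _ _ _ (Or.inl this), hx _ _ _ (Or.inl this), hz _ _ _ (Or.inl this)⟩
    | succ j ih =>
      apply column_step w x z H
      have e : |N| - ((j + 1 : ℕ) : ℤ) + 1 = |N| - j := by push_cast; ring
      rw [e]; exact ih
  intro m n k
  by_cases hm : m ≤ |N|
  · have := step (|N| - m).toNat n k
    have e : |N| - (((|N| - m).toNat : ℕ) : ℤ) = m := by omega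
    rwa [e] at this
  · have : N ≤ |m| := by
      have h1 := le_abs_self N
      have h2 := le_abs_self m
      omega
    exact ⟨hw _ _ _ (Or.inl this), hx _ _ _ (Or.inl this), hz _ _ _ (Or.inl this)⟩

end Pool.Agent.MP_a0a9ec_co
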