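import Pool.Agent.Lib.MP_a0a9ec_co.Rigid

/-! Geometry of the contact rows: the contact point lies in both bodies and the separating
direction at the contact is unique. -/

namespace Pool.Agent.MP_a0a9ec_co

open Real

/-- automatic membership test for a point on an edge of `bod k w` -/
def chkMem (k : ℕ) (w P : Pt) : Bool :=
  KVl.any (fun j1 => KVl.any (fun j2 =>
    let e1 := (Pt.rotN k j1).add w
    let e2 := (Pt.rotN k j2).add w
    let d := e2.sub e1
    decide (Pt.cr d (P.sub e1) = ⟨0, 0⟩) && (Pt.ip2 d (P.sub e1)).nonneg &&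
      (Pt.ip2 d (e2.sub P)).nonneg && (Pt.ip2 d d).pos))

theorem crs_inn_scale {d v : ℂ} (hd : 0 < inn d d) (h : crs d v = 0) :
    v = ((inn d v / inn d d : ℝ) : ℂ) * d := by
  have hne : inn d d ≠ 0 := hd.ne'
  simp only [crs, inn] at h hne ⊢
  apply Complex.ext
  · simp only [Complex.mul_re, Complex.ofReal_re, Complex.ofReal_im, zero_mul, sub_zero]
    rw [div_mul_eq_mul_div, eq_div_iff hne]
    linear_combination (-d.im) * h
  · simp only [Complex.mul_im, Complex.ofReal_re, Complex.ofReal_im, zero_mul, add_zero]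
    rw [div_mul_eq_mul_div, eq_div_iff hne]
    linear_combination (d.re) * h

theorem vert_img_mem (k : ℕ) (w : Pt) {j : Pt} (hj : j ∈ KVl) :
    evC ((Pt.rotN k j).add w) ∈ bod k (evC w) := by
  rw [evC_add, evC_rotN]; exact ⟨_, vert_mem hj, rfl⟩

theorem ev_zero : Zp.ev ⟨0, 0⟩ = 0 := by simp [Zp.ev]

theorem chkMem_sound {k : ℕ} {w P : Pt} (h : chkMem k w P = true) : evC P ∈ bod k (evC w) := by
  simp only [chkMem, List.any_eq_true, Bool.and_eq_true, decide_eq_true_eq] at h
  obtain ⟨j1, hj1, j2, hj2, ⟨⟨h1, h2⟩, h3⟩, h4⟩ := h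
  have m1 := vert_img_mem k w hj1
  have m2 := vert_img_mem k w hj2
  set e1 := (Pt.rotN k j1).add w with he1
  set e2 := (Pt.rotN k j2).add w with he2
  have c1 : crs (evC (e2.sub e1)) (evC (P.sub e1)) = 0 := by rw [crs_evC, h1, ev_zero, mul_zero]
  have i1 := Zp.nonneg_sound h2
  have i2 := Zp.nonneg_sound h3
  have i3 := Zp.pos_sound h4
  rw [← inn_evC] at i1 i2 i3
  rw [evC_sub, evC_sub] at c1 i1
  rw [evC_sub] at i3
  rw [evC_sub, evC_sub] at i2
  set d := evC e2 - evC e1 with hd
  have hdd : 0 < inn d d := by linarith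
  have e := crs_inn_scale hdd c1
  set s := inn d (evC P - evC e1) / inn d d with hs
  have s0 : 0 ≤ s := by apply div_nonneg <;> linarith
  have s1 : s ≤ 1 := by
    rw [hs, div_le_one hdd]
    have : inn d (evC e2 - evC P) = inn d d - inn d (evC P - evC e1) := by
      simp only [inn, hd, Complex.sub_re, Complex.sub_im]; ring
    linarith
  have := bod_convex k (evC w) m1 m2 (a := 1 - s) (b := s) (by linarith) s0 (by ring)
  have e3 : evC P = (1 - s) • evC e1 + s • evC e2 := by
    simp only [Complex.real_smul, Complex.ofReal_sub, Complex.ofReal_one]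
    linear_combination e
  rw [e3]; exact this

def offP (r : Row) : Pt := if r.p = 1 then uP else if r.q = 1 then vP else oP

def VA (r : Row) : List Pt := r.P :: KVl.map (fun p => (Pt.rotN r.kA p).add oP)
def VB (r : Row) : List Pt := r.P :: KVl.map (fun p => (Pt.rotN r.kB p).add (offP r))

def chkRow (r : Row) : Bool :=
  chkMem r.kA oP r.P && chkMem r.kB (offP r) r.P &&
  decide (Pt.ip2 r.t r.P = r.sA) && decide (Pt.ip2 r.t (r.P.sub (offP r)) = r.sB) &&
  (Pt.ip2 r.t r.t).pos && !(r.kA == r.kB) &&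
  ((decide (r.p = 0) && decide (r.q = 0)) || (decide (r.p = 1) && decide (r.q = 0)) ||
    (decide (r.p = 0) && decide (r.q = 1))) &&
  (VA r).any (fun a => (VB r).any (fun b =>
    decide (Pt.cr r.t (b.sub a) = ⟨0, 0⟩) && (Pt.ip2 r.t (b.sub a)).pos)) &&
  (VA r).any (fun a => (VB r).any (fun b =>
    decide (Pt.cr r.t (b.sub a) = ⟨0, 0⟩) && (Pt.ip2 r.t (a.sub b)).pos)) &&
  (VA r).any (fun a => (VB r).any (fun b => (Pt.cr r.t (b.sub a)).pos))

theorem rows_chk : rows.all chkRow = true := by decide +kernel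

theorem inn_smul_right (m : ℂ) (s : ℝ) (v : ℂ) : inn m ((s : ℂ) * v) = s * inn m v := by
  simp only [inn, Complex.mul_re, Complex.mul_im, Complex.ofReal_re, Complex.ofReal_im]; ring

theorem row_geom {r : Row} (hr : r ∈ rows) :
    evC r.P ∈ bod r.kA 0 ∧ evC r.P ∈ bod r.kB (cen r.p r.q) ∧ r.kA ≠ r.kB ∧
    2 * inn (evC r.t) (evC r.P) = r.sA.ev ∧
    2 * inn (evC r.t) (evC r.P - cen r.p r.q) = r.sB.ev ∧
    ∀ m : ℂ, m ≠ 0 → (∀ a ∈ bod r.kA 0, ∀ b ∈ bod r.kB (cen r.p r.q), 0 ≤ inn m (b - a)) →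
      ∃ c : ℝ, 0 < c ∧ ∀ v, inn m v = c * crs (evC r.t) v := by
  have h := rows_chk
  rw [List.all_eq_true] at h
  have h := h r hr
  simp only [chkRow, Bool.and_eq_true, Bool.or_eq_true, decide_eq_true_eq, List.any_eq_true,
    Bool.not_eq_true', beq_eq_false_iff_ne] at h
  obtain ⟨⟨⟨⟨⟨⟨⟨⟨⟨h1, h2⟩, h3⟩, h4⟩, h5⟩, h6⟩, h7⟩, ⟨a1, ha1, b1, hb1, g1, g2⟩⟩,
    ⟨a2, ha2, b2, hb2, g3, g4⟩⟩, ⟨a0, ha0, b0, hb0, g5⟩⟩ := h
  have off : evC (offP r) = cen r.p r.q := by
    rcases h7 with (⟨e1, e2⟩ | ⟨e1, e2⟩) | ⟨e1, e2⟩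
    · rw [e1, e2, cen00]; simp [offP, e1, e2, evC_oP]
    · rw [e1, e2, cen10]; simp [offP, e1]
    · rw [e1, e2, cen01]; simp [offP, e1, e2]
  have mA := chkMem_sound h1
  have mB := chkMem_sound h2
  rw [evC_oP] at mA
  rw [off] at mB
  have memA : ∀ a ∈ VA r, evC a ∈ bod r.kA 0 := by
    intro a ha
    rcases List.mem_cons.1 ha with rfl | ha
    · exact mA
    · obtain ⟨p, hp, rfl⟩ := List.mem_map.1 ha
      have := vert_img_mem r.kA oP hp
      rwa [evC_oP] at this
  have memB : ∀ b ∈ VB r, evC b ∈ bod r.kB (cen r.p r.q) := by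
    intro b hb
    rcases List.mem_cons.1 hb with rfl | hb
    · exact mB
    · obtain ⟨p, hp, rfl⟩ := List.mem_map.1 hb
      have := vert_img_mem r.kB (offP r) hp
      rwa [off] at this
  refine ⟨mA, mB, h6, ?_, ?_, ?_⟩
  · rw [inn_evC, h3]
  · rw [← off, ← evC_sub, inn_evC, h4]
  · intro m hm hmm
    have tt := Zp.pos_sound h5
    rw [← inn_evC] at tt
    set t := evC r.t with ht
    have tt' : 0 < inn t t := by linarith
    have k1 : 0 ≤ inn m t := by
      have c1 : crs t (evC b1 - evC a1) = 0 := by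
        rw [← evC_sub, ht, crs_evC, g1, ev_zero, mul_zero]
      have i1 := Zp.pos_sound g2
      rw [← inn_evC, evC_sub] at i1
      have := hmm _ (memA a1 ha1) _ (memB b1 hb1)
      rw [crs_inn_scale tt' c1, inn_smul_right] at this
      have hs : 0 < inn t (evC b1 - evC a1) / inn t t := div_pos (by linarith) tt'
      by_contra hc
      rw [not_le] at hc
      nlinarith
    have k2 : inn m t ≤ 0 := by
      have c1 : crs t (evC b2 - evC a2) = 0 := by
        rw [← evC_sub, ht, crs_evC, g3, ev_zero, mul_zero]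
      have i1 := Zp.pos_sound g4
      rw [← inn_evC, evC_sub] at i1
      have := hmm _ (memA a2 ha2) _ (memB b2 hb2)
      rw [crs_inn_scale tt' c1, inn_smul_right] at this
      have e : inn t (evC b2 - evC a2) = - inn t (evC a2 - evC b2) := by
        simp only [inn, Complex.sub_re, Complex.sub_im]; ring
      have hs : inn t (evC b2 - evC a2) / inn t t < 0 := div_neg_of_neg_of_pos (by linarith) tt'
      by_contra hc
      rw [not_le] at hc
      nlinarith
    have k3 : inn m t = 0 := le_antisymm k2 k1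
    -- m is a multiple of i t
    have key : ∀ v, inn m v = (crs t m / inn t t) * crs t v := by
      intro v
      have hne := tt'.ne'
      field_simp
      simp only [inn, crs] at k3 ⊢
      linear_combination (t.re * v.re + t.im * v.im) * k3
    have hcm : crs t m ≠ 0 := by
      intro h0
      have h1 := key m
      rw [h0] at h1
      simp only [zero_div, zero_mul, inn] at h1
      apply hm
      apply Complex.ext
      · simp only [Complex.zero_re]; nlinarith [mul_self_nonneg m.re, mul_self_nonneg m.im]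
      · simp only [Complex.zero_im]; nlinarith [mul_self_nonneg m.re, mul_self_nonneg m.im]
    have c3 := Zp.pos_sound g5
    have c4 : 0 < crs t (evC b0 - evC a0) := by
      rw [← evC_sub, ht, crs_evC]; exact mul_pos sg_pos c3
    have c5 := hmm _ (memA a0 ha0) _ (memB b0 hb0)
    rw [key] at c5
    refine ⟨crs t m / inn t t, ?_, key⟩
    have h0 : crs t m / inn t t ≠ 0 := div_ne_zero hcm tt'.ne'
    rcases lt_or_gt_of_ne h0 with h1 | h1
    · nlinarith
    · exact h1

end Pool.Agent.MP_a0a9ec_co
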