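import Pool.Agent.Lib.MP_a0a9ec_co.Sym
import Pool.Agent.Lib.MP_a0a9ec_co.Defs

/-! The packing is finitely stable and every member has exactly 11 neighbours. -/

namespace Pool.Agent.MP_a0a9ec_co

open Real Filter Topology

theorem body_convexBody (i : Idx) : IsConvexBody (body i) :=
  ⟨bod_compact _ _, bod_convex _ _, bod_interior_nonempty _ _⟩

theorem KK_convexBody : IsConvexBody KK := ⟨KK_compact, KK_convex, KK_interior_nonempty⟩

theorem body_injective : Function.Injective body := by
  intro i j h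
  by_contra hne
  have h1 := body_idisj hne
  rw [h, disjoint_self] at h1
  exact (body_convexBody j).2.2.ne_empty h1

theorem range_isPacking : IsPacking (Set.range body) := by
  constructor
  · rintro _ ⟨i, rfl⟩; exact body_convexBody i
  · rintro _ ⟨i, rfl⟩ _ ⟨j, rfl⟩ h
    exact body_idisj (fun e => h (by rw [e]))

theorem congruent_body (i : Idx) : Congruent KK (body i) := by
  set k : ℕ := (i.2.2 : ℕ) with hk
  let c : Circle := ⟨zt ^ k, by simp [Submonoid.unitSphere, zt_norm]⟩
  refine ⟨(rotation c).toIsometryEquiv.trans (IsometryEquiv.addRight (cc i)), ?_⟩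
  rfl

theorem neighbours_body (i : Idx) : (neighbours (Set.range body) (body i)).ncard = 11 := by
  obtain ⟨m, n, k⟩ := i
  have e : neighbours (Set.range body) (body (m, n, k)) =
      body '' ((fun x : ℤ × ℤ × Fin 10 => ((m + x.1, n + x.2.1, x.2.2) : Idx)) ''
        (nb0 k : Set (ℤ × ℤ × Fin 10))) := by
    ext D
    constructor
    · rintro ⟨⟨⟨m', n', l⟩, rfl⟩, h1, h2⟩
      rw [body_touch_iff] at h2
      have h3 : adjB (m' - m) (n' - n) k l = true := by
        rcases h2 with h2 | ⟨e1, e2, e3⟩
        · exact h2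
        · exfalso; apply h1
          have : k = l := Fin.ext e3
          rw [this, show m' = m by omega, show n' = n by omega]
      refine ⟨_, ⟨(m' - m, n' - n, l), mem_nb0.2 h3, rfl⟩, ?_⟩
      congr 1
      simp
    · rintro ⟨_, ⟨⟨p, q, l⟩, hx, rfl⟩, rfl⟩
      have h3 := mem_nb0.1 hx
      simp only [] at h3
      refine ⟨⟨_, rfl⟩, ?_, ?_⟩
      · intro h
        have := body_injective h
        simp only [Prod.mk.injEq, add_eq_left] at this
        obtain ⟨e1, e2, e3⟩ := this
        rw [e1, e2, e3, adjB_irrefl] at h3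
        exact Bool.false_ne_true h3
      · rw [body_touch_iff]
        left
        simpa using h3
  rw [e, Set.ncard_image_of_injective _ body_injective, Set.ncard_image_of_injective,
    Set.ncard_coe_finset, nb0_card]
  rintro ⟨a1, a2, a3⟩ ⟨b1, b2, b3⟩ h
  simp only [Prod.mk.injEq, add_right_inj] at h
  obtain ⟨h1, h2, h3⟩ := h
  rw [h1, h2, h3]

/-! ### Hausdorff distance -/

theorem mo_image_compact (a b : ℂ) (i : Idx) : IsCompact (mo a b i '' body i) := by
  rw [mo_eq]; exact (bod_compact _ _).image (by fun_prop)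

theorem body_nonempty (i : Idx) : (body i).Nonempty := ⟨_, cen_mem_bod _ _⟩

theorem hd_fin {X Y : Set ℂ} (hX : IsCompact X) (hY : IsCompact Y) (nX : X.Nonempty)
    (nY : Y.Nonempty) : Metric.hausdorffEDist X Y ≠ ⊤ :=
  Metric.hausdorffEDist_ne_top_of_nonempty_of_bounded nX nY hX.isBounded hY.isBounded

/-- closeness of the copies implies closeness of the motions -/
theorem close_limit (U : Ultrafilter ℕ) (i : Idx) (a b : ℕ → ℂ) (δ : ℕ → ℝ)
    (ha : ∀ j, ‖a j‖ = 1) (hδ : Tendsto δ U (𝓝 0)) (hδ1 : ∀ j, δ j ≤ 1)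
    (h : ∀ j, Metric.hausdorffDist (body i) (mo (a j) (b j) i '' body i) < δ j) :
    Tendsto a U (𝓝 1) ∧ Tendsto b U (𝓝 0) := by
  have hclose : ∀ x ∈ body i, ∀ j, ∃ y ∈ body i, dist y (mo (a j) (b j) i x) < δ j := by
    intro x hx j
    exact Metric.exists_dist_lt_of_hausdorffDist_lt'
      (show mo (a j) (b j) i x ∈ mo (a j) (b j) i '' body i from ⟨x, hx, rfl⟩) (h j)
      (hd_fin (bod_compact _ _) (mo_image_compact _ _ _) (body_nonempty i)
        ((body_nonempty i).image _))
  have hcc : cc i ∈ body i := cen_mem_bod _ _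
  have hb : ∀ j, ‖b j‖ ≤ RR + 1 := by
    intro j
    obtain ⟨y, hy, hd⟩ := hclose _ hcc j
    have h1 := bod_ball _ _ y hy
    have e : b j = (y - cc i) - (y - mo (a j) (b j) i (cc i)) := by simp only [mo]; ring
    rw [e]
    refine (norm_sub_le _ _).trans ?_
    rw [dist_eq_norm] at hd
    have := hδ1 j
    have h2 : ‖y - cc i‖ ≤ RR := h1
    linarith
  obtain ⟨A, hA⟩ := ultra_limit U a 1 (fun j => (ha j).le)
  obtain ⟨B, hB⟩ := ultra_limit U b (RR + 1) hb
  have hA1 : ‖A‖ = 1 := by
    have := hA.norm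
    simp only [ha] at this
    exact tendsto_nhds_unique this tendsto_const_nhds
  have hmaps : ∀ x ∈ body i, mo A B i x ∈ body i := by
    intro x hx
    choose y hy hd using hclose x hx
    have h1 : Tendsto (fun j => mo (a j) (b j) i x) U (𝓝 (mo A B i x)) :=
      ((hA.mul tendsto_const_nhds).add tendsto_const_nhds).add hB
    have h2 : Tendsto (fun j => dist (y j) (mo (a j) (b j) i x)) U (𝓝 0) :=
      tendsto_of_tendsto_of_tendsto_of_le_of_le tendsto_const_nhds hδ
        (fun j => dist_nonneg) (fun j => (hd j).le)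
    have h3 : Tendsto y U (𝓝 (mo A B i x)) := by
      have e : y = fun j => mo (a j) (b j) i x + (y j - mo (a j) (b j) i x) := by
        funext j; ring
      have h4 : Tendsto (fun j => y j - mo (a j) (b j) i x) U (𝓝 0) := by
        rw [tendsto_zero_iff_norm_tendsto_zero]
        simpa only [dist_eq_norm] using h2
      rw [e]
      simpa using h1.add h4
    exact (bod_compact _ _).isClosed.mem_of_tendsto h3 (Eventually.of_forall hy)
  set k : ℕ := (i.2.2 : ℕ) with hk
  have hz := zt_ne
  have hzk : zt ^ k ≠ 0 := pow_ne_zero _ hz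
  have hKK : ∀ z ∈ KK, A * z + (zt ^ k)⁻¹ * B ∈ KK := by
    intro z hz'
    obtain ⟨z', hz1, hz2⟩ := hmaps (zt ^ k * z + cc i) ⟨z, hz', rfl⟩
    have e : z' = A * z + (zt ^ k)⁻¹ * B := by
      have h5 : zt ^ k * z' + cc i = mo A B i (zt ^ k * z + cc i) := hz2
      simp only [mo] at h5
      field_simp
      linear_combination h5
    rw [← e]; exact hz1
  obtain ⟨e1, e2⟩ := rigid_KK hA1 hKK
  have e3 : B = 0 := by
    rcases mul_eq_zero.1 e2 with h | h
    · exact absurd h (inv_ne_zero hzk)
    · exact h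
  rw [e1] at hA
  rw [e3] at hB
  exact ⟨hA, hB⟩

/-- a uniform inner radius -/
theorem inner_radius : ∃ r : ℝ, 0 < r ∧ ∀ i, ∃ x, Metric.ball x r ⊆ body i := by
  obtain ⟨x, hx⟩ := KK_interior_nonempty
  obtain ⟨r, hr, hb⟩ := Metric.isOpen_iff.1 isOpen_interior x hx
  refine ⟨r, hr, fun i => ⟨zt ^ (i.2.2 : ℕ) * x + cc i, ?_⟩⟩
  intro y hy
  set k : ℕ := (i.2.2 : ℕ) with hk
  have hzk : zt ^ k ≠ 0 := pow_ne_zero _ zt_ne
  refine ⟨(zt ^ k)⁻¹ * (y - cc i), interior_subset (hb ?_), ?_⟩
  · rw [Metric.mem_ball, dist_eq_norm] at hy ⊢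
    have e : y - (zt ^ k * x + cc i) = zt ^ k * ((zt ^ k)⁻¹ * (y - cc i) - x) := by
      field_simp; ring
    rw [e, norm_mul, norm_zt_pow, one_mul] at hy
    exact hy
  · simp only []
    have : zt ^ (i.2.2 : ℕ) * ((zt ^ k)⁻¹ * (y - cc i)) = y - cc i := by
      rw [← hk]; field_simp
    rw [this]; simp [cc]

theorem hd_ge {X Y : Set ℂ} {r : ℝ} (hX : IsConvexBody X) (hY : IsConvexBody Y)
    (hb : ∃ x, Metric.ball x r ⊆ X) (hr : 0 < r)
    (hdis : Disjoint (interior X) (interior Y)) : r ≤ Metric.hausdorffDist X Y := by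
  obtain ⟨x, hx⟩ := hb
  by_contra hc
  rw [not_le] at hc
  have hxX : x ∈ X := hx (Metric.mem_ball_self hr)
  obtain ⟨y, hy, hd⟩ := Metric.exists_dist_lt_of_hausdorffDist_lt hxX hc
    (hd_fin hX.1 hY.1 ⟨x, hxX⟩ (hY.2.2.mono interior_subset))
  have h1 : y ∈ closure (interior Y) := by
    rw [hY.2.1.closure_interior_eq_closure_of_nonempty_interior hY.2.2]
    exact subset_closure hy
  have h2 : Metric.ball x r ∈ 𝓝 y := Metric.isOpen_ball.mem_nhds (by
    rw [Metric.mem_ball, dist_comm]; exact hd)
  obtain ⟨w, hw1, hw2⟩ := mem_closure_iff_nhds.1 h1 _ h2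
  exact Set.disjoint_left.1 hdis (interior_maximal hx Metric.isOpen_ball hw1) hw2

theorem range_finitelyStable : FinitelyStable (Set.range body) := by
  classical
  intro k _ S hS _
  by_contra hcon
  push Not at hcon
  obtain ⟨r, hr, hball⟩ := inner_radius
  have hεpos : ∀ j : ℕ, 0 < min (r / 2) 1 / ((j : ℝ) + 1) := by
    intro j; positivity
  choose f hf1 hf2 hf3 using fun j : ℕ => hcon _ (hεpos j)
  set δ : ℕ → ℝ := fun j => min (r / 2) 1 / ((j : ℝ) + 1) with hδ
  have hδle : ∀ j, δ j ≤ min (r / 2) 1 := by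
    intro j
    apply div_le_self (by positivity)
    have : (0 : ℝ) ≤ j := Nat.cast_nonneg j
    linarith
  have hδ1 : ∀ j, δ j ≤ 1 := fun j => (hδle j).trans (min_le_right _ _)
  have hδr : ∀ j, δ j ≤ r / 2 := fun j => (hδle j).trans (min_le_left _ _)
  have hδt : Tendsto δ (hyperfilter ℕ : Ultrafilter ℕ) (𝓝 0) := by
    have h1 : Tendsto δ atTop (𝓝 0) := by
      have := tendsto_const_div_atTop_nhds_zero_nat (min (r / 2) 1)
      have h2 := (tendsto_add_atTop_iff_nat 1).2 this
      simpa [hδ] using h2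
    exact h1.mono_left Nat.hyperfilter_le_atTop
  -- the new bodies
  set g : ℕ → Idx → Set ℂ := fun j i => if body i ∈ S then f j (body i) else body i with hg
  have hex : ∀ j i, ∃ ab : ℂ × ℂ, ‖ab.1‖ = 1 ∧ g j i = mo ab.1 ab.2 i '' body i ∧
      (body i ∉ S → ab = (1, 0)) := by
    intro j i
    by_cases hi : body i ∈ S
    · obtain ⟨e, he⟩ := (hf1 j _ hi).1
      obtain ⟨a, b, ha, hab⟩ := direct_form i e
      refine ⟨(a, b), ha, ?_, fun h => absurd hi h⟩
      simp only [hg, hi, if_true]
      rw [← hab, he]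
    · refine ⟨(1, 0), norm_one, ?_, fun _ => rfl⟩
      simp only [hg, hi, if_false]
      have : mo 1 0 i = id := by funext z; simp [mo]
      rw [this, Set.image_id]
  choose ab hab1 hab2 hab3 using hex
  set F : Finset Idx := S.preimage body body_injective.injOn with hF
  have memF : ∀ i, i ∈ F ↔ body i ∈ S := by intro i; rw [hF, Finset.mem_preimage]
  -- Hausdorff closeness
  have hclose : ∀ j i, body i ∈ S → Metric.hausdorffDist (body i) (g j i) < δ j := by
    intro j i hi
    simp only [hg, hi, if_true]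
    exact (hf1 j _ hi).2
  have gcb : ∀ j i, IsConvexBody (g j i) := by
    intro j i
    rw [hab2]
    refine ⟨mo_image_compact _ _ _, mo_image_convex _ _ _, mo_image_interior ?_ _ _⟩
    intro h0; have := hab1 j i; rw [h0] at this; simp at this
  have hdist : ∀ i i', i ≠ i' → r ≤ Metric.hausdorffDist (body i) (body i') := by
    intro i i' h
    exact hd_ge (body_convexBody i) (body_convexBody i') (hball i) hr (body_idisj h)
  have hgne : ∀ j i i', i ≠ i' → body i ∈ S → g j i ≠ g j i' := by
    intro j i i' hii hi he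
    have h1 := hclose j i hi
    have h2 := hdist i i' hii
    have h3 := hδr j
    by_cases hi' : body i' ∈ S
    · have h4 := hclose j i' hi'
      rw [← he] at h4
      have h5 : Metric.hausdorffDist (body i) (body i') ≤
          Metric.hausdorffDist (body i) (g j i) + Metric.hausdorffDist (g j i) (body i') :=
        Metric.hausdorffDist_triangle (hd_fin (body_convexBody i).1 (gcb j i).1
          (body_nonempty i) ((gcb j i).2.2.mono interior_subset))
      rw [Metric.hausdorffDist_comm (s := g j i)] at h5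
      linarith
    · have h4 : g j i' = body i' := by simp only [hg, hi', if_false]
      rw [he, h4] at h1
      linarith
  have hmem : ∀ j i, g j i ∈ (Set.range body \ (S : Set (Set ℂ))) ∪ f j '' (S : Set (Set ℂ)) := by
    intro j i
    by_cases hi : body i ∈ S
    · right
      simp only [hg, hi, if_true]
      exact ⟨body i, hi, rfl⟩
    · left
      simp only [hg, hi, if_false]
      exact ⟨⟨i, rfl⟩, hi⟩
  have hsep : ∀ j i i', i ≠ i' → Disjoint (interior (g j i)) (interior (g j i')) := by
    intro j i i' hii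
    have hne : g j i ≠ g j i' := by
      by_cases hi : body i ∈ S
      · exact hgne j i i' hii hi
      · by_cases hi' : body i' ∈ S
        · exact (hgne j i' i hii.symm hi').symm
        · simp only [hg, hi, hi', if_false]
          exact fun h => hii (body_injective h)
    exact (hf2 j).2 _ (hmem j i) _ (hmem j i') hne
  refine limit_rigid (hyperfilter ℕ) F (fun j i => (ab j i).1) (fun j i => (ab j i).2)
    hab1 ?_ ?_ ?_ ?_ ?_
  · intro j i hi
    rw [memF] at hi
    have := hab3 j i hi
    exact ⟨by rw [this], by rw [this]⟩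
  · intro j i i' hii
    rw [← hab2, ← hab2]
    exact hsep j i i' hii
  · intro i
    by_cases hi : body i ∈ S
    · refine (close_limit _ i (fun j => (ab j i).1) (fun j => (ab j i).2) δ (fun j => hab1 j i)
        hδt hδ1 (fun j => ?_)).1
      rw [← hab2]; exact hclose j i hi
    · have : (fun j => (ab j i).1) = fun _ => (1 : ℂ) := by
        funext j; rw [hab3 j i hi]
      rw [this]; exact tendsto_const_nhds
  · intro i
    by_cases hi : body i ∈ S
    · refine (close_limit _ i (fun j => (ab j i).1) (fun j => (ab j i).2) δ (fun j => hab1 j i)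
        hδt hδ1 (fun j => ?_)).2
      rw [← hab2]; exact hclose j i hi
    · have : (fun j => (ab j i).2) = fun _ => (0 : ℂ) := by
        funext j; rw [hab3 j i hi]
      rw [this]; exact tendsto_const_nhds
  · intro j
    obtain ⟨C, hC, hne⟩ := hf3 j
    obtain ⟨i, rfl⟩ := hS hC
    refine ⟨i, fun h => hne ?_⟩
    have h1 := hab2 j i
    rw [h.1, h.2] at h1
    have : mo 1 0 i = id := by funext z; simp [mo]
    rw [this, Set.image_id] at h1
    have hC' : body i ∈ S := hC
    simp only [hg, hC', if_true] at h1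
    exact h1

end Pool.Agent.MP_a0a9ec_co
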