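import Pool.Agent.Lib.MP_a0a9ec_co.Limit2

/-! Symmetries of the hexagon `KK` and reduction to direct isometries. -/

namespace Pool.Agent.MP_a0a9ec_co

open Real Filter Topology

def swapP (p : Pt) : Pt := ⟨p.y, p.x⟩

theorem conj_evC (p : Pt) : zt * (starRingEnd ℂ) (evC p) = evC (swapP p) := by
  have h := zt_normSq
  have h2 : zt * (starRingEnd ℂ) zt = 1 := by rw [Complex.mul_conj, h]; simp
  simp only [evC, swapP, map_add, map_mul, Complex.conj_ofReal]
  linear_combination (p.y.ev : ℂ) * h2

theorem KVl_swap : KVl.all (fun p => decide (swapP p ∈ KVl)) = true := by decide +kernel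

/-- the mirror symmetry of `KK` -/
theorem KK_swap {z : ℂ} (hz : z ∈ KK) : zt * (starRingEnd ℂ) z ∈ KK := by
  have hsub : KK ⊆ {z | zt * (starRingEnd ℂ) z ∈ KK} := by
    apply convexHull_min
    · rintro _ ⟨p, hp, rfl⟩
      have h := KVl_swap
      simp only [List.all_eq_true, decide_eq_true_eq] at h
      simp only [Set.mem_ofPred_eq]
      rw [conj_evC]
      exact vert_mem (h p hp)
    · intro x hx y hy s t hs ht hst
      simp only [Set.mem_ofPred_eq] at hx hy ⊢
      have := KK_convex hx hy hs ht hst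
      have e : zt * (starRingEnd ℂ) (s • x + t • y) =
          s • (zt * (starRingEnd ℂ) x) + t • (zt * (starRingEnd ℂ) y) := by
        simp only [Complex.real_smul, map_add, map_mul, Complex.conj_ofReal]; ring
      rw [e]; exact this
  exact hsub hz

/-- every isometry of the plane is `a z + b` or `a conj z + b` -/
theorem iso_form (e : ℂ ≃ᵢ ℂ) : ∃ a b : ℂ, ‖a‖ = 1 ∧
    ((∀ z, e z = a * z + b) ∨ (∀ z, e z = a * (starRingEnd ℂ) z + b)) := by
  obtain ⟨c, hc⟩ := linear_isometry_complex e.toRealLinearIsometryEquiv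
  have happ : ∀ z, e z = e.toRealLinearIsometryEquiv z + e 0 := by
    intro z
    rw [IsometryEquiv.toRealLinearIsometryEquiv_apply]; ring
  refine ⟨c, e 0, Circle.norm_coe c, ?_⟩
  rcases hc with hc | hc
  · left; intro z
    rw [happ, hc, rotation_apply]
  · right; intro z
    rw [happ, hc]
    simp [rotation_apply]

theorem norm_zt_pow (k : ℕ) : ‖zt ^ k‖ = 1 := by rw [norm_pow, zt_norm, one_pow]

theorem zt_conj_mul : (starRingEnd ℂ) zt * zt = 1 := by
  rw [mul_comm, Complex.mul_conj, zt_normSq]; simp

/-- every congruent copy of a body is a direct congruent copy -/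
theorem direct_form (i : Idx) (e : ℂ ≃ᵢ ℂ) : ∃ a b : ℂ, ‖a‖ = 1 ∧ e '' body i =
    mo a b i '' body i := by
  obtain ⟨a, b, ha, h | h⟩ := iso_form e
  · refine ⟨a, a * cc i + b - cc i, ha, ?_⟩
    apply Set.image_congr
    intro z _
    rw [h, mo]; ring
  · set k : ℕ := (i.2.2 : ℕ) with hk
    set a' : ℂ := a * (starRingEnd ℂ) (zt ^ k) * (starRingEnd ℂ) zt * (starRingEnd ℂ) (zt ^ k)
      with ha'
    set b' : ℂ := a * (starRingEnd ℂ) (cc i) + b - cc i with hb'
    have hcz : (starRingEnd ℂ) (zt ^ k) * zt ^ k = 1 := by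
      rw [map_pow, ← mul_pow, zt_conj_mul, one_pow]
    have key : ∀ z : ℂ, mo a' b' i (zt ^ k * z + cc i) =
        e (zt ^ k * (zt * (starRingEnd ℂ) z) + cc i) := by
      intro z
      rw [h, mo, ha', hb']
      simp only [map_add, map_mul, Complex.conj_conj]
      linear_combination (a * (starRingEnd ℂ) (zt ^ k) * (starRingEnd ℂ) zt * z) * hcz
    refine ⟨a', b', ?_, ?_⟩
    · rw [ha', norm_mul, norm_mul, norm_mul, ha, Complex.norm_conj, Complex.norm_conj,
        norm_zt_pow, zt_norm]; norm_num
    · ext y; constructor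
      · rintro ⟨_, ⟨z, hz, rfl⟩, rfl⟩
        refine ⟨zt ^ k * (zt * (starRingEnd ℂ) z) + cc i, ⟨_, KK_swap hz, rfl⟩, ?_⟩
        rw [key]
        congr 1
        have : zt * (starRingEnd ℂ) (zt * (starRingEnd ℂ) z) = z := by
          rw [map_mul, Complex.conj_conj, ← mul_assoc, mul_comm zt, zt_conj_mul, one_mul]
        rw [this]; rfl
      · rintro ⟨_, ⟨z, hz, rfl⟩, rfl⟩
        exact ⟨_, ⟨_, KK_swap hz, rfl⟩, (key z).symm⟩

/-! the diameter of `KK` -/

noncomputable def TT : ℂ := evC vT

theorem normSq_TT : Complex.normSq TT = RR ^ 2 := by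
  have h := two_normSq_evC vT
  have e : Pt.ip2 vT vT = ⟨420, 610⟩ := by decide
  rw [e] at h
  simp only [Zp.ev] at h
  push_cast at h
  rw [RR_sq, TT]; linarith

theorem RR_pos : 0 < RR := by
  have := phi_pos
  unfold RR; positivity

theorem norm_TT : ‖TT‖ = RR := by
  have h := normSq_TT
  rw [Complex.normSq_eq_norm_sq] at h
  nlinarith [norm_nonneg TT, RR_pos, sq_nonneg (‖TT‖ - RR)]

theorem pair_chk : KVl.all (fun p => KVl.all (fun q =>
    (decide (p = oP) && decide (q = vT)) || (decide (p = vT) && decide (q = oP)) ||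
    ((⟨420, 610⟩ : Zp).sub (Pt.ip2 (p.sub q) (p.sub q))).pos)) = true := by decide +kernel

theorem norm_lt_of_chk {p : Pt} (h : ((⟨420, 610⟩ : Zp).sub (Pt.ip2 p p)).pos = true) :
    ‖evC p‖ < RR := by
  have h1 := Zp.pos_sound h
  rw [Zp.ev_sub, ← two_normSq_evC, Complex.normSq_eq_norm_sq] at h1
  simp only [Zp.ev] at h1
  push_cast at h1
  have h2 := RR_sq
  have h3 := RR_pos
  nlinarith [norm_nonneg (evC p)]

theorem pair_dist {p q : Pt} (hp : p ∈ KVl) (hq : q ∈ KVl) :
    (p = oP ∧ q = vT) ∨ (p = vT ∧ q = oP) ∨ dist (evC p) (evC q) < RR := by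
  have h := pair_chk
  simp only [List.all_eq_true, Bool.or_eq_true, Bool.and_eq_true, decide_eq_true_eq] at h
  rcases h p hp q hq with (h | h) | h
  · exact Or.inl h
  · exact Or.inr (Or.inl h)
  · right; right
    rw [dist_eq_norm, ← evC_sub]
    exact norm_lt_of_chk h

/-- a point of `KK` at distance `RR` from a vertex `evC p` is the vertex `evC q`,
if all other vertices are closer -/
theorem far_unique {p q : Pt} (hpq : dist (evC q) (evC p) = RR)
    (h : ∀ r ∈ KVl, r = q ∨ dist (evC r) (evC p) < RR) {y : ℂ} (hy : y ∈ KK)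
    (hd : dist y (evC p) = RR) : y = evC q := by
  have hsub : KK ⊆ {z | z = evC q ∨ dist z (evC p) < RR} := by
    apply convexHull_min
    · rintro _ ⟨r, hr, rfl⟩
      rcases h r hr with h | h
      · left; rw [h]
      · right; exact h
    · intro x hx y hy s t hs ht hst
      have est : dist (s • x + t • y) (evC p) ≤ s * dist x (evC p) + t * dist y (evC p) := by
        have e : s • x + t • y - evC p = s • (x - evC p) + t • (y - evC p) := by
          have : ((s : ℂ) + t) = 1 := by exact_mod_cast hst
          simp only [Complex.real_smul]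
          linear_combination (evC p) * this
        rw [dist_eq_norm, e]
        refine (norm_add_le _ _).trans ?_
        rw [norm_smul, norm_smul, Real.norm_of_nonneg hs, Real.norm_of_nonneg ht, dist_eq_norm,
          dist_eq_norm]
      have esum : s * RR + t * RR = RR := by rw [← add_mul, hst, one_mul]
      simp only [Set.mem_ofPred_eq] at hx hy ⊢
      rcases eq_or_lt_of_le hs with hs0 | hs0
      · rw [← hs0] at hst ⊢
        rw [zero_add] at hst
        rw [hst, zero_smul, zero_add, one_smul]; exact hy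
      rcases eq_or_lt_of_le ht with ht0 | ht0
      · rw [← ht0] at hst ⊢
        rw [add_zero] at hst
        rw [hst, zero_smul, add_zero, one_smul]; exact hx
      rcases hx with rfl | hx
      · rcases hy with rfl | hy
        · left; rw [← add_smul, hst, one_smul]
        · right; rw [hpq] at est
          have := mul_lt_mul_of_pos_left hy ht0
          linarith
      · right
        have h1 := mul_lt_mul_of_pos_left hx hs0
        rcases hy with rfl | hy
        · rw [hpq] at est; linarith
        · have h2 := mul_lt_mul_of_pos_left hy ht0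
          linarith
  rcases hsub hy with h | h
  · exact h
  · exact absurd hd h.ne

theorem dist_T0 : dist (evC vT) (evC oP) = RR := by
  rw [evC_oP, dist_zero_right]; exact norm_TT

theorem diam_pair {x y : ℂ} (hx : x ∈ KK) (hy : y ∈ KK) (hd : dist x y = RR) :
    (x = 0 ∧ y = TT) ∨ (x = TT ∧ y = 0) := by
  have far0 : ∀ {y : ℂ}, y ∈ KK → dist y (evC oP) = RR → y = evC vT := by
    intro y hy hd
    refine far_unique dist_T0 ?_ hy hd
    intro r hr
    rcases pair_dist hr (show oP ∈ KVl by decide) with h | h | h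
    · exact absurd h.2 (by decide)
    · exact Or.inl h.1
    · exact Or.inr h
  have farT : ∀ {y : ℂ}, y ∈ KK → dist y (evC vT) = RR → y = evC oP := by
    intro y hy hd
    refine far_unique (by rw [dist_comm]; exact dist_T0) ?_ hy hd
    intro r hr
    rcases pair_dist hr (show vT ∈ KVl by decide) with h | h | h
    · exact Or.inl h.1
    · exact absurd h.2 (by decide)
    · exact Or.inr h
  obtain ⟨v, ⟨p, hp, rfl⟩, h1⟩ := convexHull_exists_dist_ge hx y
  obtain ⟨w, ⟨q, hq, rfl⟩, h2⟩ := convexHull_exists_dist_ge hy (evC p)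
  rw [dist_comm y, dist_comm (evC q)] at h2
  rcases pair_dist hp hq with h | h | h
  · obtain ⟨rfl, rfl⟩ := h
    have h3 : dist (evC oP) (evC vT) = RR := by rw [dist_comm]; exact dist_T0
    have h4 : dist y (evC oP) = RR := by
      rw [dist_comm]; linarith
    have h5 := far0 hy h4
    rw [h5] at hd
    have h6 := farT hx hd
    left; exact ⟨by rw [h6, evC_oP], h5⟩
  · obtain ⟨rfl, rfl⟩ := h
    have h3 := dist_T0
    have h4 : dist y (evC vT) = RR := by
      rw [dist_comm]; linarith
    have h5 := farT hy h4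
    rw [h5] at hd
    have h6 := far0 hx hd
    right; exact ⟨h6, by rw [h5, evC_oP]⟩
  · linarith

theorem KK_im_nonneg {z : ℂ} (hz : z ∈ KK) : 0 ≤ z.im := by
  have hsub : KK ⊆ {z : ℂ | 0 ≤ z.im} := by
    apply convexHull_min
    · rintro _ ⟨p, hp, rfl⟩
      have h : KVl.all (fun p => p.y.nonneg) = true := by decide +kernel
      rw [List.all_eq_true] at h
      simp only [Set.mem_ofPred_eq, evC_im]
      exact mul_nonneg (Zp.nonneg_sound (h p hp)) sg_pos.le
    · exact convex_halfSpace_im_ge 0
  exact hsub hz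

/-- the only direct isometry mapping `KK` into itself is the identity -/
theorem rigid_KK {a b : ℂ} (ha : ‖a‖ = 1) (h : ∀ z ∈ KK, a * z + b ∈ KK) : a = 1 ∧ b = 0 := by
  have h0 := h 0 zero_mem_KK
  have hT : TT ∈ KK := vert_mem (by decide)
  have h1 := h TT hT
  rw [mul_zero, zero_add] at h0
  have hd : dist b (a * TT + b) = RR := by
    rw [dist_comm, dist_eq_norm, add_sub_cancel_right, norm_mul, ha, one_mul, norm_TT]
  have hT0 : TT ≠ 0 := by
    intro h; have := norm_TT; rw [h, norm_zero] at this; have := RR_pos; linarith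
  rcases diam_pair h0 h1 hd with ⟨e1, e2⟩ | ⟨e1, e2⟩
  · refine ⟨?_, e1⟩
    rw [e1, add_zero] at e2
    exact mul_right_cancel₀ hT0 (by rw [e2, one_mul])
  · exfalso
    rw [e1] at e2
    have ha' : a = -1 := mul_right_cancel₀ hT0 (by linear_combination e2)
    have hV : evC vV ∈ KK := vert_mem (by decide)
    have h2 := h _ hV
    rw [ha', e1] at h2
    have h3 := KK_im_nonneg h2
    have e3 : (-1 * evC vV + TT) = evC (vT.sub vV) := by rw [evC_sub, TT]; ring
    rw [e3, evC_im] at h3
    have h4 : ((vT.sub vV).y.neg).pos = true := by decide +kernel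
    have h5 := Zp.pos_sound h4
    rw [Zp.ev_neg] at h5
    have := sg_pos
    nlinarith

end Pool.Agent.MP_a0a9ec_co
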