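import Pool.Agent.Lib.MP_a0a9ec_co.Defs

/-! Transfer of the definitions along a linear isometry. -/

namespace Pool.Agent.MP_a0a9ec_co

variable {E E' : Type*} [NormedAddCommGroup E] [NormedSpace ℝ E] [NormedAddCommGroup E']
  [NormedSpace ℝ E'] (Φ : E ≃ₗᵢ[ℝ] E')

theorem image_interior_iso (C : Set E) : interior (Φ '' C) = Φ '' interior C := by
  have h := Φ.toHomeomorph.image_interior C
  exact h.symm

theorem IsConvexBody.map {C : Set E} (h : IsConvexBody C) : IsConvexBody (Φ '' C) := by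
  refine ⟨h.1.image Φ.continuous, ?_, ?_⟩
  · exact h.2.1.linear_image Φ.toLinearEquiv.toLinearMap
  · rw [image_interior_iso]; exact h.2.2.image _

theorem IsPacking.map {𝒞 : Set (Set E)} (h : IsPacking 𝒞) :
    IsPacking ((fun C : Set E => Φ '' C) '' 𝒞) := by
  constructor
  · rintro _ ⟨C, hC, rfl⟩; exact (h.1 C hC).map Φ
  · rintro _ ⟨C, hC, rfl⟩ _ ⟨D, hD, rfl⟩ hne
    simp only [image_interior_iso]
    rw [Set.disjoint_image_iff Φ.injective]
    exact h.2 C hC D hD (fun e => hne (by rw [e]))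

theorem Congruent.map {C D : Set E} (h : Congruent C D) : Congruent (Φ '' C) (Φ '' D) := by
  obtain ⟨e, rfl⟩ := h
  refine ⟨(Φ.symm.toIsometryEquiv.trans e).trans Φ.toIsometryEquiv, ?_⟩
  ext y; constructor
  · rintro ⟨_, ⟨x, hx, rfl⟩, rfl⟩
    refine ⟨e x, ⟨x, hx, rfl⟩, ?_⟩
    simp
  · rintro ⟨_, ⟨x, hx, rfl⟩, rfl⟩
    refine ⟨Φ x, ⟨x, hx, rfl⟩, ?_⟩
    simp

theorem symm_image_image (C : Set E) : Φ.symm '' (Φ '' C) = C := by
  rw [← Set.image_comp]
  have : (Φ.symm ∘ Φ : E → E) = id := by funext x; simp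
  rw [this, Set.image_id]

theorem image_symm_image (C : Set E') : Φ '' (Φ.symm '' C) = C := by
  rw [← Set.image_comp]
  have : (Φ ∘ Φ.symm : E' → E') = id := by funext x; simp
  rw [this, Set.image_id]

theorem image_inj : Function.Injective (fun C : Set E => Φ '' C) :=
  Φ.injective.image_injective

theorem neighbours_map {𝒞 : Set (Set E)} {C : Set E} :
    neighbours ((fun C : Set E => Φ '' C) '' 𝒞) (Φ '' C) =
      (fun C : Set E => Φ '' C) '' neighbours 𝒞 C := by
  ext D; constructor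
  · rintro ⟨⟨D, hD, rfl⟩, h1, h2⟩
    refine ⟨D, ⟨hD, fun e => h1 (by rw [e]), ?_⟩, rfl⟩
    simp only [] at h2
    rw [← Set.image_inter Φ.injective] at h2
    exact Set.image_nonempty.1 h2
  · rintro ⟨D, ⟨h1, h2, h3⟩, rfl⟩
    refine ⟨⟨D, h1, rfl⟩, fun e => h2 (image_inj Φ e), ?_⟩
    simp only []
    rw [← Set.image_inter Φ.injective]
    exact h3.image _

theorem KStable.map {k : ℕ} {𝒞 : Set (Set E)} (h : KStable k 𝒞) :
    KStable k ((fun C : Set E => Φ '' C) '' 𝒞) := by
  classical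
  intro S' hS' hk
  set inv : Set E' → Set E := fun C => Φ.symm '' C with hinv
  have inv_inj : Function.Injective inv := Φ.symm.injective.image_injective
  obtain ⟨ε, hε, H⟩ := h (S'.image inv) (by
    intro C hC
    rw [Finset.coe_image] at hC
    obtain ⟨C', hC', rfl⟩ := hC
    obtain ⟨D, hD, rfl⟩ := hS' hC'
    simp only [hinv]
    rw [symm_image_image]; exact hD) (by
    rw [Finset.card_image_of_injective _ inv_inj, hk])
  refine ⟨ε, hε, fun f' hf' hp => ?_⟩
  have key := H (fun C => inv (f' (Φ '' C))) (by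
    intro C hC
    obtain ⟨C', hC', rfl⟩ := Finset.mem_image.1 hC
    simp only [hinv]
    rw [image_symm_image]
    obtain ⟨h1, h2⟩ := hf' C' hC'
    refine ⟨h1.map Φ.symm, ?_⟩
    rwa [Metric.hausdorffDist_image Φ.symm.isometry]) (by
    have := hp.map Φ.symm
    have e : (fun C : Set E' => Φ.symm '' C) ''
        ((fun C : Set E => Φ '' C) '' 𝒞 \ (S' : Set (Set E')) ∪ f' '' (S' : Set (Set E'))) =
        𝒞 \ ((S'.image inv : Finset (Set E)) : Set (Set E)) ∪
          (fun C => inv (f' (Φ '' C))) '' ((S'.image inv : Finset (Set E)) : Set (Set E)) := by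
      rw [Set.image_union, Finset.coe_image]
      congr 1
      · ext C; constructor
        · rintro ⟨_, ⟨⟨C, hC, rfl⟩, hCS⟩, rfl⟩
          simp only []
          rw [symm_image_image]
          refine ⟨hC, ?_⟩
          rintro ⟨C', hC', rfl⟩
          apply hCS
          simp only [hinv]
          rw [image_symm_image]; exact hC'
        · rintro ⟨hC, hCS⟩
          refine ⟨Φ '' C, ⟨⟨C, hC, rfl⟩, fun hh => hCS ⟨Φ '' C, hh, ?_⟩⟩, ?_⟩
          · simp only [hinv]; rw [symm_image_image]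
          · simp only []; rw [symm_image_image]
      · ext C; constructor
        · rintro ⟨_, ⟨C', hC', rfl⟩, rfl⟩
          refine ⟨inv C', ⟨C', hC', rfl⟩, ?_⟩
          simp only [hinv]; rw [image_symm_image]
        · rintro ⟨_, ⟨C', hC', rfl⟩, rfl⟩
          refine ⟨f' C', ⟨C', hC', rfl⟩, ?_⟩
          simp only [hinv]; rw [image_symm_image]
    rw [← e]; exact this)
  intro C' hC'
  have h1 := key (inv C') (Finset.mem_image_of_mem _ hC')
  simp only [hinv] at h1
  rw [image_symm_image] at h1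
  exact inv_inj h1

theorem FinitelyStable.map {𝒞 : Set (Set E)} (h : FinitelyStable 𝒞) :
    FinitelyStable ((fun C : Set E => Φ '' C) '' 𝒞) := fun k hk => (h k hk).map Φ

end Pool.Agent.MP_a0a9ec_co
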