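import Mathlib

/-! Exact arithmetic in the ring of numbers a + b phi with integer a, b, phi the golden ratio,
with a decidable sign test, and its evaluation in the reals. -/

namespace Pool.Agent.MP_a0a9ec_co

open Real

/-- The number `a + b φ`. -/
structure Zp where
  a : ℤ
  b : ℤ
deriving DecidableEq

namespace Zp

def add (x y : Zp) : Zp := ⟨x.a + y.a, x.b + y.b⟩
def sub (x y : Zp) : Zp := ⟨x.a - y.a, x.b - y.b⟩
def neg (x : Zp) : Zp := ⟨-x.a, -x.b⟩
def mul (x y : Zp) : Zp := ⟨x.a * y.a + x.b * y.b, x.a * y.b + x.b * y.a + x.b * y.b⟩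

/-- sign test: is `a + b φ > 0`? -/
def pos (z : Zp) : Bool :=
  let x := 2 * z.a + z.b
  let y := z.b
  (decide (0 ≤ x) && decide (0 ≤ y) && (decide (0 < x) || decide (0 < y))) ||
  (decide (0 < x) && decide (y < 0) && decide (5 * y * y < x * x)) ||
  (decide (x < 0) && decide (0 < y) && decide (x * x < 5 * y * y))

/-- test: is `a + b φ ≥ 0`? -/
def nonneg (z : Zp) : Bool := (decide (z.a = 0) && decide (z.b = 0)) || pos z

noncomputable def ev (z : Zp) : ℝ := z.a + z.b * goldenRatio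

theorem ev_add (x y : Zp) : ev (add x y) = ev x + ev y := by
  simp only [ev, add]; push_cast; ring
theorem ev_sub (x y : Zp) : ev (sub x y) = ev x - ev y := by
  simp only [ev, sub]; push_cast; ring
theorem ev_neg (x : Zp) : ev (neg x) = - ev x := by
  simp only [ev, neg]; push_cast; ring
theorem ev_mul (x y : Zp) : ev (mul x y) = ev x * ev y := by
  simp only [ev, mul]; push_cast
  linear_combination (-(x.b : ℝ) * y.b) * goldenRatio_sq

theorem two_ev (z : Zp) : 2 * ev z = (2 * z.a + z.b : ℤ) + (z.b : ℝ) * √5 := by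
  simp only [ev, goldenRatio]; push_cast; ring

theorem pos_sound {z : Zp} (h : pos z = true) : 0 < ev z := by
  have h2 := two_ev z
  have s5 : 0 < √(5 : ℝ) := by positivity
  have s5' : √(5 : ℝ) * √5 = 5 := Real.mul_self_sqrt (by norm_num)
  set x : ℤ := 2 * z.a + z.b with hx
  set y : ℤ := z.b with hy
  suffices h3 : 0 < (x : ℝ) + (y : ℝ) * √5 by linarith
  simp only [pos, ← hx, ← hy, Bool.or_eq_true, Bool.and_eq_true, decide_eq_true_eq] at h
  rcases h with (⟨⟨h1, h4⟩, h5⟩ | ⟨⟨h1, h4⟩, h5⟩) | ⟨⟨h1, h4⟩, h5⟩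
  · have h1' : (0 : ℝ) ≤ x := by exact_mod_cast h1
    have h4' : (0 : ℝ) ≤ y := by exact_mod_cast h4
    rcases h5 with h5 | h5
    · have h5' : (0 : ℝ) < x := by exact_mod_cast h5
      nlinarith [mul_nonneg h4' s5.le]
    · have h5' : (0 : ℝ) < y := by exact_mod_cast h5
      nlinarith [mul_pos h5' s5]
  · have h1' : (0 : ℝ) < x := by exact_mod_cast h1
    have h4' : (y : ℝ) < 0 := by exact_mod_cast h4
    have h5' : 5 * (y : ℝ) * y < x * x := by exact_mod_cast h5
    by_contra hc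
    rw [not_lt] at hc
    have h6 : (x : ℝ) ≤ (-y) * √5 := by linarith
    have h7 : (x : ℝ) * x ≤ ((-y) * √5) * ((-y) * √5) :=
      mul_self_le_mul_self h1'.le h6
    nlinarith
  · have h1' : (x : ℝ) < 0 := by exact_mod_cast h1
    have h4' : (0 : ℝ) < y := by exact_mod_cast h4
    have h5' : (x : ℝ) * x < 5 * (y : ℝ) * y := by exact_mod_cast h5
    by_contra hc
    rw [not_lt] at hc
    have h6 : (y : ℝ) * √5 ≤ -x := by linarith
    have h7 : ((y : ℝ) * √5) * (y * √5) ≤ (-x) * (-x) :=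
      mul_self_le_mul_self (by positivity) h6
    nlinarith

theorem nonneg_sound {z : Zp} (h : nonneg z = true) : 0 ≤ ev z := by
  simp only [nonneg, Bool.or_eq_true, Bool.and_eq_true, decide_eq_true_eq] at h
  rcases h with ⟨h1, h2⟩ | h
  · simp [ev, h1, h2]
  · exact (pos_sound h).le

end Zp

/-- points in the oblique basis `1, ζ` -/
structure Pt where
  x : Zp
  y : Zp
deriving DecidableEq

namespace Pt
def add (p q : Pt) : Pt := ⟨p.x.add q.x, p.y.add q.y⟩
def sub (p q : Pt) : Pt := ⟨p.x.sub q.x, p.y.sub q.y⟩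
def neg (p : Pt) : Pt := ⟨p.x.neg, p.y.neg⟩
/-- multiplication by `ζ` -/
def rot (p : Pt) : Pt := ⟨p.y.neg, p.x.add (Zp.mul ⟨0, 1⟩ p.y)⟩
def rotN : ℕ → Pt → Pt
  | 0, p => p
  | n + 1, p => rot (rotN n p)
/-- cross product divided by `sin 36°` -/
def cr (t p : Pt) : Zp := (t.x.mul p.y).sub (t.y.mul p.x)
/-- twice the inner product -/
def ip2 (p q : Pt) : Zp :=
  Zp.add (Zp.mul ⟨2, 0⟩ (Zp.add (p.x.mul q.x) (p.y.mul q.y)))
    (Zp.mul ⟨0, 1⟩ (Zp.add (p.x.mul q.y) (p.y.mul q.x)))
end Pt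

/-! the complex number `ζ = exp (i π / 5)` -/

noncomputable def sg : ℝ := √(3 - goldenRatio) / 2

theorem gr_lt : goldenRatio < 2 := goldenRatio_lt_two

theorem sg_pos : 0 < sg := by
  have := gr_lt
  unfold sg
  have : 0 < 3 - goldenRatio := by linarith
  positivity

theorem sg_sq : sg ^ 2 = (3 - goldenRatio) / 4 := by
  have := gr_lt
  unfold sg
  rw [div_pow, Real.sq_sqrt (by linarith)]; norm_num

noncomputable def zt : ℂ := ⟨goldenRatio / 2, sg⟩

theorem zt_sq : zt ^ 2 = (goldenRatio : ℂ) * zt - 1 := by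
  have h := sg_sq
  have h2 := goldenRatio_sq
  apply Complex.ext
  · simp only [pow_two, zt, Complex.mul_re, Complex.sub_re, Complex.ofReal_re, Complex.ofReal_im,
      Complex.one_re]
    nlinarith
  · simp only [pow_two, zt, Complex.mul_im, Complex.sub_im, Complex.ofReal_re, Complex.ofReal_im,
      Complex.one_im]
    ring

theorem zt_five : zt ^ 5 = -1 := by
  have h := zt_sq
  have h2 : (goldenRatio : ℂ) ^ 2 = goldenRatio + 1 := by exact_mod_cast goldenRatio_sq
  have h3 : zt ^ 3 = (goldenRatio : ℂ) * zt - goldenRatio := by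
    linear_combination (zt + goldenRatio) * h + zt * h2
  linear_combination (zt ^ 2) * h3 + ((goldenRatio : ℂ) * zt - goldenRatio) * h +
    (goldenRatio : ℂ) ^ 2 * h + ((goldenRatio : ℂ) * zt - 1) * h2

theorem zt_normSq : Complex.normSq zt = 1 := by
  have h := sg_sq
  have h2 := goldenRatio_sq
  simp only [Complex.normSq_apply, zt]
  nlinarith

theorem zt_norm : ‖zt‖ = 1 := by
  rw [← Real.sqrt_one, ← zt_normSq]; rfl

theorem zt_ne : zt ≠ 0 := by
  intro h; have := zt_norm; rw [h] at this; simp at this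

/-- the point of the plane with oblique coordinates `p` -/
noncomputable def evC (p : Pt) : ℂ := (p.x.ev : ℂ) + (p.y.ev : ℂ) * zt

theorem evC_re (p : Pt) : (evC p).re = p.x.ev + p.y.ev * (goldenRatio / 2) := by
  simp [evC, zt]
theorem evC_im (p : Pt) : (evC p).im = p.y.ev * sg := by
  simp [evC, zt]

theorem evC_add (p q : Pt) : evC (p.add q) = evC p + evC q := by
  simp only [evC, Pt.add, Zp.ev_add]; push_cast; ring
theorem evC_sub (p q : Pt) : evC (p.sub q) = evC p - evC q := by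
  simp only [evC, Pt.sub, Zp.ev_sub]; push_cast; ring
theorem evC_neg (p : Pt) : evC (p.neg) = - evC p := by
  simp only [evC, Pt.neg, Zp.ev_neg]; push_cast; ring

theorem evC_rot (p : Pt) : evC p.rot = zt * evC p := by
  simp only [evC, Pt.rot, Zp.ev_add, Zp.ev_neg, Zp.ev_mul]
  have h : Zp.ev ⟨0, 1⟩ = goldenRatio := by simp [Zp.ev]
  rw [h]; simp only [Complex.ofReal_add, Complex.ofReal_mul, Complex.ofReal_neg]
  linear_combination (-(p.y.ev : ℂ)) * zt_sq

theorem evC_rotN (n : ℕ) (p : Pt) : evC (Pt.rotN n p) = zt ^ n * evC p := by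
  induction n with
  | zero => simp [Pt.rotN]
  | succ n ih => rw [Pt.rotN, evC_rot, ih, pow_succ]; ring

/-- cross product of two complex numbers as plane vectors -/
def crs (t z : ℂ) : ℝ := t.re * z.im - t.im * z.re

theorem crs_evC (t p : Pt) : crs (evC t) (evC p) = sg * (Pt.cr t p).ev := by
  simp only [crs, evC_re, evC_im, Pt.cr, Zp.ev_sub, Zp.ev_mul]; ring

/-- inner product of two complex numbers as plane vectors -/
def inn (t z : ℂ) : ℝ := t.re * z.re + t.im * z.im

theorem inn_evC (t p : Pt) : 2 * inn (evC t) (evC p) = (Pt.ip2 t p).ev := by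
  have h := sg_sq
  have h2 := goldenRatio_sq
  have e0 : Zp.ev ⟨0, 1⟩ = goldenRatio := by simp [Zp.ev]
  have e2 : Zp.ev ⟨2, 0⟩ = 2 := by simp [Zp.ev]
  simp only [inn, evC_re, evC_im, Pt.ip2, Zp.ev_add, Zp.ev_mul, e0, e2]
  linear_combination (2 * t.y.ev * p.y.ev) * h + (t.y.ev * p.y.ev / 2) * h2

end Pool.Agent.MP_a0a9ec_co
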